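import Pool.Agent.H839.PV.Gad

/-!
# Functions of the sum of squares
-/

set_option autoImplicit false

namespace Pool.Agent.H839.PV.QQ

open MeasureTheory Set

/-- A measurable function which vanishes on `[1, ∞)`, is positive on `(-∞, 1)` and bounded on `[0, ∞)`. -/
structure Good (Ψ : ℝ → ENNReal) : Prop where
  meas : Measurable Ψ
  zero : ∀ Q, 1 ≤ Q → Ψ Q = 0
  pos : ∀ Q, Q < 1 → Ψ Q ≠ 0
  bdd : ∃ C : ENNReal, C ≠ ⊤ ∧ ∀ Q, 0 ≤ Q → Ψ Q ≤ C

/-- one more square -/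
noncomputable def J (Ψ : ℝ → ENNReal) (Q : ℝ) : ENNReal := ∫⁻ p : ℝ, Ψ (Q + p ^ 2)

/-- one more square, with the weight `(2 + p)⁻²` -/
noncomputable def Jr (Ψ : ℝ → ENNReal) (Q : ℝ) : ENNReal :=
  ∫⁻ p : ℝ, ENNReal.ofReal ((2 + p) ^ 2)⁻¹ * Ψ (Q + p ^ 2)

/-- three more squares -/
noncomputable def J3 (Ψ : ℝ → ENNReal) (Q : ℝ) : ENNReal :=
  ∫⁻ v : ℝ × ℝ × ℝ, Ψ (Q + v.1 ^ 2 + v.2.1 ^ 2 + v.2.2 ^ 2)

/-- the indicator function of `Q < 1` -/
noncomputable def Ψ0 : ℝ → ENNReal := (Iio (1 : ℝ)).indicator 1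

theorem good0 : Good Ψ0 where
  meas := measurable_one.indicator measurableSet_Iio
  zero Q h := by simp [Ψ0, h]
  pos Q h := by simp [Ψ0, h]
  bdd := ⟨1, by simp, fun Q _ => by unfold Ψ0; exact indicator_le_self _ _ _⟩

theorem sq_ge_of_norm {p : ℝ} (h : ¬ ‖p‖ ≤ 1) : 1 ≤ p ^ 2 := by
  rw [Real.norm_eq_abs] at h
  push Not at h
  nlinarith [sq_abs p]

theorem good_J {Ψ : ℝ → ENNReal} (h : Good Ψ) : Good (J Ψ) where
  meas := by
    have h1 : Measurable (fun v : ℝ × ℝ => Ψ (v.1 + v.2 ^ 2)) := h.meas.comp (by fun_prop)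
    exact h1.lintegral_prod_right'
  zero Q hQ := by
    unfold J
    rw [lintegral_congr (g := fun _ => 0), lintegral_zero]
    intro p
    exact h.zero _ (by nlinarith [sq_nonneg p])
  pos Q hQ := by
    have h1 : Measurable (fun p : ℝ => Ψ (Q + p ^ 2)) := h.meas.comp (by fun_prop)
    have h2 : 0 < ∫⁻ p : ℝ, Ψ (Q + p ^ 2) := by
      rw [lintegral_pos_iff_support h1]
      have h3 : IsOpen {p : ℝ | Q + p ^ 2 < 1} := isOpen_lt (by fun_prop) (by fun_prop)
      refine (h3.measure_pos volume ⟨0, by simpa using hQ⟩).trans_le (measure_mono ?_)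
      intro p hp
      exact h.pos _ hp
    exact h2.ne'
  bdd := by
    obtain ⟨C, hC, h1⟩ := h.bdd
    refine ⟨C * volume (Metric.closedBall (0 : ℝ) 1), ENNReal.mul_ne_top hC measure_closedBall_lt_top.ne, ?_⟩
    intro Q hQ
    unfold J
    rw [← lintegral_indicator_const Metric.isClosed_closedBall.measurableSet]
    refine lintegral_mono fun p => ?_
    by_cases hp : ‖p‖ ≤ 1
    · rw [indicator_of_mem (by simpa using hp)]
      exact h1 _ (by positivity)
    · rw [h.zero _ (by nlinarith [sq_ge_of_norm hp])]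
      exact zero_le

theorem good_Jr {Ψ : ℝ → ENNReal} (h : Good Ψ) : Good (Jr Ψ) where
  meas := by
    have h1 : Measurable (fun v : ℝ × ℝ => ENNReal.ofReal ((2 + v.2) ^ 2)⁻¹ * Ψ (v.1 + v.2 ^ 2)) := by
      refine Measurable.mul ?_ (h.meas.comp (by fun_prop))
      exact ENNReal.measurable_ofReal.comp (by fun_prop)
    exact h1.lintegral_prod_right'
  zero Q hQ := by
    unfold Jr
    rw [lintegral_congr (g := fun _ => 0), lintegral_zero]
    intro p
    rw [h.zero _ (by nlinarith [sq_nonneg p]), mul_zero]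
  pos Q hQ := by
    have h1 : Measurable (fun p : ℝ => ENNReal.ofReal ((2 + p) ^ 2)⁻¹ * Ψ (Q + p ^ 2)) := by
      refine Measurable.mul ?_ (h.meas.comp (by fun_prop))
      exact ENNReal.measurable_ofReal.comp (by fun_prop)
    have h2 : 0 < ∫⁻ p : ℝ, ENNReal.ofReal ((2 + p) ^ 2)⁻¹ * Ψ (Q + p ^ 2) := by
      rw [lintegral_pos_iff_support h1]
      have h3 : IsOpen ({p : ℝ | Q + p ^ 2 < 1} ∩ {p : ℝ | 0 < 2 + p}) :=
        (isOpen_lt (by fun_prop) (by fun_prop)).inter (isOpen_lt (by fun_prop) (by fun_prop))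
      refine (h3.measure_pos volume ⟨0, by simpa using hQ, by simp⟩).trans_le (measure_mono ?_)
      rintro p ⟨hp, hp'⟩
      refine mul_ne_zero ?_ (h.pos _ hp)
      simp only [mem_ofPred_eq] at hp'
      have : 0 < ((2 + p) ^ 2)⁻¹ := by positivity
      exact (ENNReal.ofReal_pos.2 this).ne'
    exact h2.ne'
  bdd := by
    obtain ⟨C, hC, h1⟩ := h.bdd
    refine ⟨C * volume (Metric.closedBall (0 : ℝ) 1), ENNReal.mul_ne_top hC measure_closedBall_lt_top.ne, ?_⟩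
    intro Q hQ
    unfold Jr
    rw [← lintegral_indicator_const Metric.isClosed_closedBall.measurableSet]
    refine lintegral_mono fun p => ?_
    by_cases hp : ‖p‖ ≤ 1
    · rw [indicator_of_mem (by simpa using hp)]
      rw [Real.norm_eq_abs, abs_le] at hp
      have h2 : ENNReal.ofReal ((2 + p) ^ 2)⁻¹ ≤ 1 := by
        rw [ENNReal.ofReal_le_one]
        exact inv_le_one_of_one_le₀ (by nlinarith)
      calc ENNReal.ofReal ((2 + p) ^ 2)⁻¹ * Ψ (Q + p ^ 2) ≤ 1 * C := mul_le_mul' h2 (h1 _ (by positivity))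
        _ = C := one_mul C
    · simp only
      rw [h.zero _ (by nlinarith [sq_ge_of_norm hp]), mul_zero]
      exact zero_le

theorem good_J3 {Ψ : ℝ → ENNReal} (h : Good Ψ) : Good (J3 Ψ) where
  meas := by
    have h1 : Measurable (fun v : ℝ × (ℝ × ℝ × ℝ) => Ψ (v.1 + v.2.1 ^ 2 + v.2.2.1 ^ 2 + v.2.2.2 ^ 2)) :=
      h.meas.comp (by fun_prop)
    exact h1.lintegral_prod_right'
  zero Q hQ := by
    unfold J3
    rw [lintegral_congr (g := fun _ => 0), lintegral_zero]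
    intro v
    exact h.zero _ (by nlinarith [sq_nonneg v.1, sq_nonneg v.2.1, sq_nonneg v.2.2])
  pos Q hQ := by
    have h1 : Measurable (fun v : ℝ × ℝ × ℝ => Ψ (Q + v.1 ^ 2 + v.2.1 ^ 2 + v.2.2 ^ 2)) := h.meas.comp (by fun_prop)
    have h2 : 0 < ∫⁻ v : ℝ × ℝ × ℝ, Ψ (Q + v.1 ^ 2 + v.2.1 ^ 2 + v.2.2 ^ 2) := by
      rw [lintegral_pos_iff_support h1]
      have h3 : IsOpen {v : ℝ × ℝ × ℝ | Q + v.1 ^ 2 + v.2.1 ^ 2 + v.2.2 ^ 2 < 1} :=
        isOpen_lt (by fun_prop) (by fun_prop)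
      refine (h3.measure_pos volume ⟨0, by simpa using hQ⟩).trans_le (measure_mono ?_)
      intro p hp
      exact h.pos _ hp
    exact h2.ne'
  bdd := by
    obtain ⟨C, hC, h1⟩ := h.bdd
    refine ⟨C * volume (Metric.closedBall (0 : ℝ × ℝ × ℝ) 1), ENNReal.mul_ne_top hC measure_closedBall_lt_top.ne, ?_⟩
    intro Q hQ
    unfold J3
    rw [← lintegral_indicator_const Metric.isClosed_closedBall.measurableSet]
    refine lintegral_mono fun v => ?_
    by_cases hp : ‖v‖ ≤ 1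
    · rw [indicator_of_mem (by simpa using hp)]
      exact h1 _ (by positivity)
    · have h2 : 1 ≤ Q + v.1 ^ 2 + v.2.1 ^ 2 + v.2.2 ^ 2 := by
        rw [Prod.norm_def, Prod.norm_def, max_le_iff, max_le_iff, not_and_or, not_and_or] at hp
        have a1 := sq_nonneg v.1
        have a2 := sq_nonneg v.2.1
        have a3 := sq_nonneg v.2.2
        rcases hp with hp | hp | hp <;> nlinarith [sq_ge_of_norm hp]
      simp only
      rw [h.zero _ h2]
      exact zero_le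

theorem good_iter {Ψ : ℝ → ENNReal} (h : Good Ψ) (k : ℕ) : Good (J3^[k] Ψ) := by
  induction k with
  | zero => exact h
  | succ k ih =>
    rw [Function.iterate_succ_apply']
    exact good_J3 ih

/-! ### Substitutions -/

theorem lint_mul (f : ℝ → ENNReal) (hf : Measurable f) {c : ℝ} (hc : c ≠ 0) :
    ∫⁻ y : ℝ, f (y * c) = ENNReal.ofReal |c|⁻¹ * ∫⁻ y : ℝ, f y := by
  have h1 := Real.map_volume_mul_right hc
  have h2 : ∫⁻ y : ℝ, f y ∂(Measure.map (fun x => x * c) volume) = ∫⁻ y : ℝ, f (y * c) :=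
    lintegral_map hf (by fun_prop)
  rw [← h2, h1, lintegral_smul_measure, abs_inv]
  rfl

theorem affine {Ψ : ℝ → ENNReal} (h : Good Ψ) (c Q : ℝ) (hQ : 0 ≤ Q) :
    ∫⁻ y : ℝ, Ψ (Q + (y * c - 2) ^ 2) = ENNReal.ofReal |c|⁻¹ * J Ψ Q := by
  rcases eq_or_ne c 0 with rfl | hc
  · rw [lintegral_congr (g := fun _ => 0), lintegral_zero]
    · simp
    · intro y
      exact h.zero _ (by nlinarith)
  · rw [lint_mul (fun y => Ψ (Q + (y - 2) ^ 2)) (h.meas.comp (by fun_prop)) hc]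
    congr 1
    exact lintegral_sub_right_eq_self (fun y => Ψ (Q + y ^ 2)) 2

theorem affine2 {Ψ : ℝ → ENNReal} (h : Good Ψ) (c Q : ℝ) (hQ : 0 ≤ Q) :
    ∫⁻ y : ℝ, ENNReal.ofReal |y|⁻¹ * (ENNReal.ofReal |y|⁻¹ * Ψ (Q + (y * c - 2) ^ 2)) =
      ENNReal.ofReal |c| * Jr Ψ Q := by
  rcases eq_or_ne c 0 with rfl | hc
  · rw [lintegral_congr (g := fun _ => 0), lintegral_zero]
    · simp
    · intro y
      rw [h.zero _ (by nlinarith), mul_zero, mul_zero]
  · have h1 : ∀ y : ℝ, ENNReal.ofReal |y|⁻¹ * (ENNReal.ofReal |y|⁻¹ * Ψ (Q + (y * c - 2) ^ 2)) =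
        (fun z : ℝ => ENNReal.ofReal |c| * (ENNReal.ofReal |c| * (ENNReal.ofReal (z ^ 2)⁻¹ * Ψ (Q + (z - 2) ^ 2)))) (y * c) := by
      intro y
      simp only
      rw [← mul_assoc, ← mul_assoc, ← mul_assoc, ← ENNReal.ofReal_mul (by positivity),
        ← ENNReal.ofReal_mul (by positivity), ← ENNReal.ofReal_mul (by positivity)]
      congr 2
      rw [mul_pow, ← sq_abs y, ← sq_abs c]
      have : |c| ≠ 0 := abs_ne_zero.2 hc
      rcases eq_or_ne y 0 with rfl | hy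
      · simp
      · have : |y| ≠ 0 := abs_ne_zero.2 hy
        field_simp
    rw [lintegral_congr h1, lint_mul (fun z : ℝ => ENNReal.ofReal |c| * (ENNReal.ofReal |c| *
      (ENNReal.ofReal (z ^ 2)⁻¹ * Ψ (Q + (z - 2) ^ 2)))) ?_ hc]
    · rw [lintegral_const_mul' _ _ ENNReal.ofReal_ne_top, lintegral_const_mul' _ _ ENNReal.ofReal_ne_top, ← mul_assoc,
        ← mul_assoc, ← ENNReal.ofReal_mul (by positivity), inv_mul_cancel₀ (abs_ne_zero.2 hc), ENNReal.ofReal_one,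
        one_mul]
      congr 1
      rw [Jr, ← lintegral_sub_right_eq_self (fun p : ℝ => ENNReal.ofReal ((2 + p) ^ 2)⁻¹ * Ψ (Q + p ^ 2)) 2]
      refine lintegral_congr fun y => ?_
      rw [show (2 : ℝ) + (y - 2) = y by ring]
    · have m1 : Measurable (fun z : ℝ => Ψ (Q + (z - 2) ^ 2)) := h.meas.comp (by fun_prop)
      have m2 : Measurable (fun z : ℝ => ENNReal.ofReal (z ^ 2)⁻¹) := ENNReal.measurable_ofReal.comp (by fun_prop)
      exact ((m2.mul m1).const_mul _).const_mul _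

/-- the integral over `w` -/
theorem wint {Ψ : ℝ → ENNReal} (h : Good Ψ) {A Q ν ν' : ℝ} (hA : 0 < A)
    (hP : 1 ≤ Q ∨ (0 ≤ Q ∧ 2 * |ν'| ≤ -ν)) :
    ∫⁻ w : ℝ, ENNReal.ofReal |A * w ^ 2 + ν'| * (ENNReal.ofReal |w|⁻¹ * Ψ (Q + (A * w ^ 2 + ν - 2) ^ 2)) =
      ∫⁻ p : ℝ, ENNReal.ofReal (1 + ν' / (p + 2 - ν)) * Ψ (Q + p ^ 2) := by
  rcases hP with hQ | ⟨hQ, hν⟩
  · rw [lintegral_congr (g := fun _ => 0), lintegral_zero, lintegral_congr (g := fun _ => 0), lintegral_zero]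
    · intro y
      rw [h.zero _ (by nlinarith [sq_nonneg y]), mul_zero]
    · intro y
      rw [h.zero _ (by nlinarith [sq_nonneg (A * y ^ 2 + ν - 2)]), mul_zero, mul_zero]
  · have e0 := abs_nonneg ν'
    set φ : ℝ → ENNReal := fun y => ENNReal.ofReal |y + ν'| * (ENNReal.ofReal (2 * y)⁻¹ * Ψ (Q + (y + ν - 2) ^ 2))
      with hφ
    rw [even_lintegral _ (by intro x; rw [abs_neg, neg_sq])]
    have h1 : ∫⁻ w in Ioi (0 : ℝ), ENNReal.ofReal |A * w ^ 2 + ν'| *
        (ENNReal.ofReal |w|⁻¹ * Ψ (Q + (A * w ^ 2 + ν - 2) ^ 2)) = ∫⁻ y in Ioi (0 : ℝ), φ y := by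
      rw [← cov A 0 hA φ]
      apply setLIntegral_congr_fun measurableSet_Ioi
      intro w hw
      simp only [mem_Ioi] at hw
      simp only [hφ, add_zero]
      rw [abs_of_pos hw, mul_comm A (w ^ 2)]
      rw [← mul_assoc, ← mul_assoc, ← mul_assoc, ← ENNReal.ofReal_mul (by positivity),
        ← ENNReal.ofReal_mul (by positivity), ← ENNReal.ofReal_mul (by positivity)]
      congr 2
      field_simp
    have h2 : ∫⁻ y in Ioi (0 : ℝ), φ y = ∫⁻ y, φ y := by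
      have h3 : ∫⁻ y in (Ioi (0 : ℝ))ᶜ, φ y = 0 := by
        rw [setLIntegral_congr_fun (g := fun _ => 0) measurableSet_Ioi.compl, lintegral_zero]
        intro t ht
        simp only [mem_compl_iff, mem_Ioi, not_lt] at ht
        simp only [hφ]
        rw [h.zero _ (by nlinarith), mul_zero, mul_zero]
      have h4 := lintegral_add_compl (μ := volume) φ (measurableSet_Ioi (a := (0 : ℝ)))
      rw [h3, add_zero] at h4
      exact h4
    rw [h1, h2, ← lintegral_const_mul' _ _ (by simp), ← lintegral_sub_right_eq_self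
      (fun p : ℝ => ENNReal.ofReal (1 + ν' / (p + 2 - ν)) * Ψ (Q + p ^ 2)) (2 - ν)]
    refine lintegral_congr fun y => ?_
    simp only [hφ]
    rw [show y - (2 - ν) + 2 - ν = y by ring, show y - (2 - ν) = y + ν - 2 by ring]
    by_cases hy : 1 ≤ Q + (y + ν - 2) ^ 2
    · rw [h.zero _ hy]
      simp
    · push Not at hy
      have hy1 : (y + ν - 2) ^ 2 < 1 := by linarith
      have hy2 := abs_lt_of_sq_lt_sq' (by simpa using hy1 : (y + ν - 2) ^ 2 < 1 ^ 2) (by norm_num)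
      have hy3 : 0 < y := by linarith [hy2.1]
      have hy4 : 0 < y + ν' := by linarith [hy2.1, neg_abs_le ν']
      rw [abs_of_pos hy4, show (2 : ENNReal) = ENNReal.ofReal 2 by simp, ← mul_assoc, ← mul_assoc,
        ← ENNReal.ofReal_mul (by positivity), ← ENNReal.ofReal_mul (by positivity)]
      congr 2
      field_simp

theorem wint0 {Ψ : ℝ → ENNReal} (h : Good Ψ) {A Q ν ν' : ℝ} (hA : A ≤ 0)
    (hP : 1 ≤ Q ∨ (0 ≤ Q ∧ 2 * |ν'| ≤ -ν)) :
    ∫⁻ w : ℝ, ENNReal.ofReal |A * w ^ 2 + ν'| * (ENNReal.ofReal |w|⁻¹ * Ψ (Q + (A * w ^ 2 + ν - 2) ^ 2)) = 0 := by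
  rw [lintegral_congr (g := fun _ => 0), lintegral_zero]
  intro w
  rcases hP with hQ | ⟨hQ, hν⟩
  · rw [h.zero _ (by nlinarith [sq_nonneg (A * w ^ 2 + ν - 2)]), mul_zero, mul_zero]
  · have e0 := abs_nonneg ν'
    have h1 : A * w ^ 2 ≤ 0 := mul_nonpos_of_nonpos_of_nonneg hA (sq_nonneg w)
    rw [h.zero _ (by nlinarith), mul_zero, mul_zero]

/-- the symmetrization -/
theorem symm {Ψ : ℝ → ENNReal} (h : Good Ψ) {Q ν ν' : ℝ} (hP : 1 ≤ Q ∨ (0 ≤ Q ∧ 2 * |ν'| ≤ -ν)) :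
    (∫⁻ p : ℝ, ENNReal.ofReal (1 + ν' / (p + 2 - ν)) * Ψ (Q + p ^ 2)) +
      (∫⁻ p : ℝ, ENNReal.ofReal (1 + (-ν') / (p + 2 - ν)) * Ψ (Q + p ^ 2)) = 2 * J Ψ Q := by
  rw [← lintegral_add_left, J, ← lintegral_const_mul' _ _ (by simp)]
  · refine lintegral_congr fun p => ?_
    rcases hP with hQ | ⟨hQ, hν⟩
    · rw [h.zero _ (by nlinarith [sq_nonneg p])]
      simp
    · have e0 := abs_nonneg ν'
      by_cases hy : 1 ≤ Q + p ^ 2
      · rw [h.zero _ hy]
        simp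
      · push Not at hy
        have hy1 : p ^ 2 < 1 := by linarith
        have hy2 := abs_lt_of_sq_lt_sq' (by simpa using hy1 : p ^ 2 < 1 ^ 2) (by norm_num)
        have hy3 : 0 < p + 2 - ν := by linarith [hy2.1]
        have hy4 : |ν'| ≤ p + 2 - ν := by linarith [hy2.1]
        have h5 : |ν' / (p + 2 - ν)| ≤ 1 := by
          rw [abs_div, abs_of_pos hy3]
          exact div_le_one_of_le₀ hy4 hy3.le
        rw [abs_le] at h5
        rw [← add_mul, neg_div, ← ENNReal.ofReal_add (by linarith) (by linarith)]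
        congr 1
        rw [show (1 + ν' / (p + 2 - ν) + (1 + -(ν' / (p + 2 - ν)))) = 2 by ring]
        simp
  · refine Measurable.mul ?_ (h.meas.comp (by fun_prop))
    exact ENNReal.measurable_ofReal.comp (by fun_prop)

end Pool.Agent.H839.PV.QQ
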