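import Pool.Agent.H839.PV.QQ.Fibre
import Pool.Agent.H839.PV.Dec

/-!
# The quadratic polynomials
-/

set_option autoImplicit false
set_option synthInstance.maxSize 2000

namespace Pool.Agent.H839.PV.QQ

open TH960.PE

/-- data of a step: the factor, the coefficient of `w²`, and two natural numbers whose difference is the coefficient
of the new variable in the outputs -/
abbrev Stp := Poly × ℕ × ℕ × ℕ

/-- the state: the next variable, `z`, `z'`, `e`, the outputs `o`, `o'` and the list of the polynomials -/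
abbrev State := ℕ × Poly × Poly × Poly × Poly × Poly × List Poly

/-- one step -/
def stp (n : ℕ) (s : State) (t : Stp) : State :=
  (s.1 + 3, var s.1, var (s.1 + 1), var (s.1 + 2),
    s.2.2.2.2.1 ++ (pmul (cst t.2.2.1) (var s.1) ++ (pneg (pmul (cst t.2.2.2) (var s.1)) ++
      pneg (pmul (cst (3 * (t.2.2.1 + t.2.2.2))) (var (s.1 + 2))))),
    s.2.2.2.2.2.1 ++ (pmul (cst t.2.2.1) (var (s.1 + 1)) ++ pneg (pmul (cst t.2.2.2) (var (s.1 + 1)))),
    s.2.2.2.2.2.2 ++ [psub (var s.1) (pmul t.1 s.2.1 ++ pmul (cst t.2.1) (sq (var (n + 1)))),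
      psub (var (s.1 + 1)) (pmul t.1 s.2.2.1 ++ pmul (cst t.2.1) (sq (var (n + 1)))),
      psub (var (s.1 + 2)) (pmul (var n) s.2.2.2.1 ++ cst 2)])

/-- the last five polynomials -/
def fnl (n : ℕ) (s : State) : List Poly :=
  s.2.2.2.2.2.2 ++ [psub s.2.2.2.2.1 (cst 2), psub (pmul (var s.1) (var (n + 1))) (cst 2),
    psub (pmul (var (s.1 + 1)) s.2.2.2.2.2.1) (cst 2), psub (pmul (var (s.1 + 2)) (var (s.1 + 1))) (cst 2),
    psub (pmul (var (s.1 + 3)) (var (s.1 + 1))) (cst 2)]

/-- the sum of the squares of the first `n` variables -/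
def nsq (n : ℕ) : Poly := (List.range n).flatMap (fun i => sq (var i))

/-- the first state -/
def st0 (n : ℕ) : State := (n + 2, [], [], [], [], [], [psub (var n) (nsq n ++ cst 2)])

/-- the list of the quadratic polynomials -/
def quads (n : ℕ) (st : List Stp) : List Poly := fnl n (st.foldl (stp n) (st0 n))

/-- the sum of the squares -/
noncomputable def ssq (X : ℕ → ℝ) (L : List Poly) : ℝ := (L.map (fun p => pev X p ^ 2)).sum

theorem ssq_append (X : ℕ → ℝ) (L M : List Poly) : ssq X (L ++ M) = ssq X L + ssq X M := by simp [ssq]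

theorem ssq_nonneg (X : ℕ → ℝ) (L : List Poly) : 0 ≤ ssq X L := by
  induction L with
  | nil => simp [ssq]
  | cons p L ih =>
    have : ssq X (p :: L) = pev X p ^ 2 + ssq X L := by simp [ssq]
    rw [this]
    positivity

/-- the real data of a step -/
noncomputable def rsp (X : ℕ → ℝ) (t : Stp) : RStep :=
  (pev X t.1, (t.2.1 : ℝ), (t.2.2.1 : ℝ) - t.2.2.2, 3 * ((t.2.2.1 : ℝ) + t.2.2.2))

theorem rd_fnl (n : ℕ) (X : ℕ → ℝ) (st : List Stp) : ∀ s : State,
    Ψ0 (ssq X (fnl n (st.foldl (stp n) s))) = rd (X n) (X (n + 1)) (st.map (rsp X)) s.1 (ssq X s.2.2.2.2.2.2)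
      (pev X s.2.1) (pev X s.2.2.1) (pev X s.2.2.2.1) (pev X s.2.2.2.2.1) (pev X s.2.2.2.2.2.1) X := by
  induction st with
  | nil =>
    intro s
    simp only [List.foldl_nil, List.map_nil, rd, fnl, ssq_append]
    congr 1
    simp only [ssq, List.map_cons, List.map_nil, List.sum_cons, List.sum_nil, pev_psub, pev_pmul, pev_cst, pev_var,
      Nat.cast_ofNat]
    ring
  | cons t st ih =>
    intro s
    rw [List.foldl_cons, ih]
    simp only [List.map_cons, rd, rsp]
    have e1 : ssq X (stp n s t).2.2.2.2.2.2 = ssq X s.2.2.2.2.2.2 +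
        (X s.1 - (pev X t.1 * pev X s.2.1 + (t.2.1 : ℝ) * X (n + 1) ^ 2)) ^ 2 +
        (X (s.1 + 1) - (pev X t.1 * pev X s.2.2.1 + (t.2.1 : ℝ) * X (n + 1) ^ 2)) ^ 2 +
        (X (s.1 + 2) - (X n * pev X s.2.2.2.1 + 2)) ^ 2 := by
      simp only [stp, ssq_append]
      simp only [ssq, List.map_cons, List.map_nil, List.sum_cons, List.sum_nil, pev_psub, pev_pmul, pev_cst, pev_var,
        pev_append, pev_sq, Nat.cast_ofNat]
      ring
    have e2 : pev X (stp n s t).2.2.2.2.1 = pev X s.2.2.2.2.1 + ((t.2.2.1 : ℝ) - t.2.2.2) * X s.1 -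
        3 * ((t.2.2.1 : ℝ) + t.2.2.2) * X (s.1 + 2) := by
      simp only [stp, pev_append, pev_pneg, pev_pmul, pev_cst, pev_var, Nat.cast_mul, Nat.cast_add, Nat.cast_ofNat]
      ring
    have e3 : pev X (stp n s t).2.2.2.2.2.1 = pev X s.2.2.2.2.2.1 + ((t.2.2.1 : ℝ) - t.2.2.2) * X (s.1 + 1) := by
      simp only [stp, pev_append, pev_pneg, pev_pmul, pev_cst, pev_var]
      ring
    have e4 : pev X (stp n s t).2.1 = X s.1 := by simp only [stp, pev_var]
    have e5 : pev X (stp n s t).2.2.1 = X (s.1 + 1) := by simp only [stp, pev_var]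
    have e6 : pev X (stp n s t).2.2.2.1 = X (s.1 + 2) := by simp only [stp, pev_var]
    have e7 : (stp n s t).1 = s.1 + 3 := rfl
    rw [e1, e2, e3, e4, e5, e6, e7]

theorem pev_nsq (X : ℕ → ℝ) (n : ℕ) : pev X (nsq n) = ∑ i ∈ Finset.range n, X i ^ 2 := by
  unfold nsq
  induction n with
  | zero => simp [pev_nil]
  | succ n ih =>
    rw [List.range_succ, List.flatMap_append, pev_append, ih, Finset.sum_range_succ]
    simp [pev_sq, pev_var]

theorem rd_quads (n : ℕ) (X : ℕ → ℝ) (st : List Stp) :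
    Ψ0 (ssq X (quads n st)) = rd (X n) (X (n + 1)) (st.map (rsp X)) (n + 2)
      ((X n - (∑ i ∈ Finset.range n, X i ^ 2) - 2) ^ 2) 0 0 0 0 0 X := by
  rw [quads, rd_fnl]
  have e1 : ssq X (st0 n).2.2.2.2.2.2 = (X n - (∑ i ∈ Finset.range n, X i ^ 2) - 2) ^ 2 := by
    simp only [st0, ssq, List.map_cons, List.map_nil, List.sum_cons, List.sum_nil, pev_psub, pev_append, pev_nsq,
      pev_cst, pev_var, Nat.cast_ofNat]
    ring
  rw [e1]
  simp only [st0, pev_nil]

/-! ### Degrees -/

/-- integer coefficients, at most `N` variables, degree at most `k` -/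
def Fit (N k : ℕ) (P : Poly) : Prop := ∀ m ∈ P, m.2.length ≤ N ∧ m.1.2.2 = 0 ∧ m.2.sum ≤ k

theorem fit_nil (N k : ℕ) : Fit N k [] := by
  intro m hm
  simp at hm

theorem Fit.append {N k : ℕ} {P Q : Poly} (hP : Fit N k P) (hQ : Fit N k Q) : Fit N k (P ++ Q) := by
  intro m hm
  rcases List.mem_append.1 hm with h | h
  · exact hP m h
  · exact hQ m h

theorem Fit.mono {N N' k k' : ℕ} {P : Poly} (hP : Fit N k P) (h : N ≤ N') (h' : k ≤ k') : Fit N' k' P := fun m hm =>
  ⟨(hP m hm).1.trans h, (hP m hm).2.1, (hP m hm).2.2.trans h'⟩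

theorem Fit.neg {N k : ℕ} {P : Poly} (hP : Fit N k P) : Fit N k (pneg P) := by
  intro m hm
  simp only [pneg, List.mem_map] at hm
  obtain ⟨a, ha, rfl⟩ := hm
  exact hP a ha

theorem Fit.sub {N k : ℕ} {P Q : Poly} (hP : Fit N k P) (hQ : Fit N k Q) : Fit N k (psub P Q) := hP.append hQ.neg

theorem sum_eq_range (e : List ℕ) : ∀ k, e.length ≤ k → e.sum = ∑ i ∈ Finset.range k, e.getD i 0 := by
  induction e with
  | nil => intro k _; simp
  | cons a e ih =>
    intro k hk
    rcases k with _ | k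
    · simp at hk
    · rw [List.sum_cons, ih k (by simpa using hk), Finset.sum_range_succ', add_comm]
      simp

theorem sum_map_range (f : ℕ → ℕ) (k : ℕ) : ((List.range k).map f).sum = ∑ i ∈ Finset.range k, f i := by
  induction k with
  | zero => simp
  | succ k ih => rw [List.range_succ, List.map_append, List.sum_append, ih, Finset.sum_range_succ]; simp

theorem sum_addE (e e' : List ℕ) : (addE e e').sum = e.sum + e'.sum := by
  have h1 : (addE e e').sum = ∑ i ∈ Finset.range (max e.length e'.length), (e.getD i 0 + e'.getD i 0) := by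
    rw [addE]
    exact sum_map_range _ _
  rw [h1, Finset.sum_add_distrib, ← sum_eq_range e _ (le_max_left _ _), ← sum_eq_range e' _ (le_max_right _ _)]

theorem Fit.mul {N k l : ℕ} {P Q : Poly} (hP : Fit N k P) (hQ : Fit N l Q) : Fit N (k + l) (pmul P Q) := by
  intro m hm
  simp only [pmul, List.mem_flatMap, List.mem_map] at hm
  obtain ⟨a, ha, b, hb, rfl⟩ := hm
  obtain ⟨a1, a2, a3⟩ := hP a ha
  obtain ⟨b1, b2, b3⟩ := hQ b hb
  refine ⟨?_, ?_, ?_⟩
  · simp only [addE, List.length_map, List.length_range, max_le_iff]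
    exact ⟨a1, b1⟩
  · simp only [cmul, a2, b2]
  · simp only [sum_addE]
    omega

theorem fit_cst (N k a : ℕ) : Fit N k (cst a) := by
  intro m hm
  simp only [cst, List.mem_singleton] at hm
  subst hm
  simp

theorem fit_var {N i : ℕ} (h : i < N) : Fit N 1 (var i) := by
  intro m hm
  simp only [var, List.mem_singleton] at hm
  subst hm
  simp
  omega

theorem fit_nsq (n N : ℕ) (h : n ≤ N) : Fit N 2 (nsq n) := by
  intro m hm
  simp only [nsq, List.mem_flatMap, List.mem_range] at hm
  obtain ⟨i, hi, hm⟩ := hm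
  exact (fit_var (by omega : i < N)).mul (fit_var (by omega)) m hm

/-- the state is in `N` variables -/
structure FitS (N : ℕ) (s : State) : Prop where
  z : Fit N 1 s.2.1
  z' : Fit N 1 s.2.2.1
  e : Fit N 1 s.2.2.2.1
  o : Fit N 1 s.2.2.2.2.1
  o' : Fit N 1 s.2.2.2.2.2.1
  acc : ∀ p ∈ s.2.2.2.2.2.2, Fit N 2 p

theorem fitS_stp {n N : ℕ} {s : State} {t : Stp} (hs : FitS N s) (ht : Fit n 1 t.1) (hn : n + 1 < N)
    (hm : s.1 + 3 ≤ N) : FitS N (stp n s t) where
  z := fit_var (by omega)
  z' := fit_var (by omega)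
  e := fit_var (by omega)
  o := hs.o.append (((fit_cst N 0 _).mul (fit_var (by omega))).append ((((fit_cst N 0 _).mul
    (fit_var (by omega))).neg).append ((fit_cst N 0 _).mul (fit_var (by omega))).neg))
  o' := hs.o'.append (((fit_cst N 0 _).mul (fit_var (by omega))).append ((fit_cst N 0 _).mul
    (fit_var (by omega))).neg)
  acc := by
    have ht' : Fit N 1 t.1 := ht.mono (by omega) le_rfl
    have hw : Fit N 2 (pmul (cst t.2.1) (sq (var (n + 1)))) :=
      ((fit_cst N 0 _).mul ((fit_var (by omega : n + 1 < N)).mul (fit_var (by omega)))).mono le_rfl (by omega)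
    intro p hp
    simp only [stp, List.mem_append, List.mem_cons, List.not_mem_nil, or_false] at hp
    rcases hp with hp | rfl | rfl | rfl
    · exact hs.acc p hp
    · exact ((fit_var (by omega)).mono le_rfl (by omega)).sub ((ht'.mul hs.z).append hw)
    · exact ((fit_var (by omega)).mono le_rfl (by omega)).sub ((ht'.mul hs.z').append hw)
    · exact ((fit_var (by omega)).mono le_rfl (by omega)).sub (((fit_var (by omega)).mul hs.e).append
        (fit_cst _ _ _))

theorem fitS_foldl {n N : ℕ} (hn : n + 1 < N) (st : List Stp) (ht : ∀ t ∈ st, Fit n 1 t.1) : ∀ s : State, FitS N s →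
    s.1 + 3 * st.length ≤ N → FitS N (st.foldl (stp n) s) ∧ (st.foldl (stp n) s).1 = s.1 + 3 * st.length := by
  induction st with
  | nil => intro s hs _; exact ⟨hs, by simp⟩
  | cons t st ih =>
    intro s hs hm
    rw [List.length_cons] at hm
    rw [List.foldl_cons]
    obtain ⟨h1, h2⟩ := ih (fun u hu => ht u (by simp [hu])) (stp n s t) (fitS_stp hs (ht t (by simp)) hn (by omega))
      (by simp only [stp]; omega)
    refine ⟨h1, ?_⟩
    rw [h2, List.length_cons]
    simp only [stp]
    ring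

/-- the number of variables -/
def nv (n : ℕ) (st : List Stp) : ℕ := n + (3 * st.length + 4 + 1 + 1)

theorem fit_quads {n : ℕ} {st : List Stp} (ht : ∀ t ∈ st, Fit n 1 t.1) : ∀ p ∈ quads n st, Fit (nv n st) 2 p := by
  have hn : n + 1 < nv n st := by unfold nv; omega
  have h0 : FitS (nv n st) (st0 n) := by
    refine ⟨fit_nil _ _, fit_nil _ _, fit_nil _ _, fit_nil _ _, fit_nil _ _, ?_⟩
    intro p hp
    simp only [st0, List.mem_singleton] at hp
    subst hp
    exact ((fit_var (by omega)).mono le_rfl (by omega)).sub ((fit_nsq n _ (by omega)).append (fit_cst _ _ _))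
  obtain ⟨h1, h2⟩ := fitS_foldl hn st ht (st0 n) h0 (by simp only [st0, nv]; omega)
  set s := st.foldl (stp n) (st0 n) with hs
  have h3 : s.1 + 4 = nv n st := by
    rw [h2]
    simp only [st0, nv]
    ring
  intro p hp
  simp only [quads, fnl, ← hs, List.mem_append, List.mem_cons, List.not_mem_nil, or_false] at hp
  rcases hp with hp | rfl | rfl | rfl | rfl | rfl
  · exact h1.acc p hp
  · exact (h1.o.mono le_rfl (by omega)).sub (fit_cst _ _ _)
  · exact ((fit_var (by omega)).mul (fit_var (by omega))).sub (fit_cst _ _ _)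
  · exact ((fit_var (by omega)).mul h1.o').sub (fit_cst _ _ _)
  · exact ((fit_var (by omega)).mul (fit_var (by omega))).sub (fit_cst _ _ _)
  · exact ((fit_var (by omega)).mul (fit_var (by omega))).sub (fit_cst _ _ _)

end Pool.Agent.H839.PV.QQ
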