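import Pool.Agent.H839.PV.QQ.Ball

/-!
# The chain
-/

set_option autoImplicit false

namespace Pool.Agent.H839.PV.QQ

open MeasureTheory Set

/-- a step of the chain: the new variable is `c z + d W + p`, and it enters the two outputs with the coefficient `α`;
the last entry is the coefficient of the new variable of the control chain -/
abbrev RStep := ℝ × ℝ × ℝ × ℝ

/-- the integral over the errors of the chain of a function of `Q` and of the two outputs -/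
noncomputable def CH (R W : ℝ) (G : ℝ → ℝ → ℝ → ENNReal) : List RStep → ℝ → ℝ → ℝ → ℝ → ℝ → ℝ → ENNReal
  | [], Q, _, _, _, o, o' => G Q o o'
  | s :: st, Q, z, z', e, o, o' => ∫⁻ v : ℝ × ℝ × ℝ, CH R W G st (Q + v.1 ^ 2 + v.2.1 ^ 2 + v.2.2 ^ 2)
      (s.1 * z + s.2.1 * W + v.1) (s.1 * z' + s.2.1 * W + v.2.1) (R * e + 2 + v.2.2)
      (o + s.2.2.1 * (s.1 * z + s.2.1 * W + v.1) - s.2.2.2 * (R * e + 2 + v.2.2))
      (o' + s.2.2.1 * (s.1 * z' + s.2.1 * W + v.2.1))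

/-- the same for the errors only -/
noncomputable def CI (R : ℝ) (B : ℝ → ℝ → ℝ → ENNReal) : List RStep → ℝ → ℝ → ℝ → ℝ → ℝ → ℝ → ENNReal
  | [], Q, _, _, _, ν, ν' => B Q ν ν'
  | s :: st, Q, n, n', e, ν, ν' => ∫⁻ v : ℝ × ℝ × ℝ, CI R B st (Q + v.1 ^ 2 + v.2.1 ^ 2 + v.2.2 ^ 2)
      (s.1 * n + v.1) (s.1 * n' + v.2.1) (R * e + 2 + v.2.2)
      (ν + s.2.2.1 * (s.1 * n + v.1) - s.2.2.2 * (R * e + 2 + v.2.2)) (ν' + s.2.2.1 * (s.1 * n' + v.2.1))

/-- the coefficient of `W` in the outputs -/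
def fin : List RStep → ℝ → ℝ → ℝ
  | [], _, A => A
  | s :: st, ζ, A => fin st (s.1 * ζ + s.2.1) (A + s.2.2.1 * (s.1 * ζ + s.2.1))

theorem CH_eq (R W : ℝ) (G : ℝ → ℝ → ℝ → ENNReal) (st : List RStep) : ∀ Q ζ n n' e A ν ν' : ℝ,
    CH R W G st Q (ζ * W + n) (ζ * W + n') e (A * W + ν) (A * W + ν') =
      CI R (fun Q ν ν' => G Q (fin st ζ A * W + ν) (fin st ζ A * W + ν')) st Q n n' e ν ν' := by
  induction st with
  | nil => intro Q ζ n n' e A ν ν'; rfl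
  | cons s st ih =>
    intro Q ζ n n' e A ν ν'
    rw [CH, CI]
    refine lintegral_congr fun v => ?_
    simp only [fin]
    rw [← ih]
    congr 1 <;> ring

theorem CI_meas (R : ℝ) (B : ℝ → ℝ → ℝ → ℝ → ENNReal)
    (hB : Measurable (fun v : ℝ × ℝ × ℝ × ℝ => B v.1 v.2.1 v.2.2.1 v.2.2.2)) (st : List RStep) :
    ∀ (T : Type) [MeasurableSpace T] (w Q n n' e ν ν' : T → ℝ), Measurable w → Measurable Q → Measurable n →
      Measurable n' → Measurable e → Measurable ν → Measurable ν' →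
      Measurable (fun t => CI R (B (w t)) st (Q t) (n t) (n' t) (e t) (ν t) (ν' t)) := by
  induction st with
  | nil =>
    intro T _ w Q n n' e ν ν' hw hQ hn hn' he hν hν'
    exact hB.comp (hw.prodMk (hQ.prodMk (hν.prodMk hν')))
  | cons s st ih =>
    intro T _ w Q n n' e ν ν' hw hQ hn hn' he hν hν'
    simp only [CI]
    have h1 := ih (T × (ℝ × ℝ × ℝ)) (fun t => w t.1) (fun t => Q t.1 + t.2.1 ^ 2 + t.2.2.1 ^ 2 + t.2.2.2 ^ 2)
      (fun t => s.1 * n t.1 + t.2.1) (fun t => s.1 * n' t.1 + t.2.2.1) (fun t => R * e t.1 + 2 + t.2.2.2)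
      (fun t => ν t.1 + s.2.2.1 * (s.1 * n t.1 + t.2.1) - s.2.2.2 * (R * e t.1 + 2 + t.2.2.2))
      (fun t => ν' t.1 + s.2.2.1 * (s.1 * n' t.1 + t.2.2.1))
      (by fun_prop) (by fun_prop) (by fun_prop) (by fun_prop) (by fun_prop) (by fun_prop) (by fun_prop)
    exact h1.lintegral_prod_right'

theorem CI_swap (R : ℝ) (B : ℝ → ℝ → ℝ → ℝ → ENNReal)
    (hB : Measurable (fun v : ℝ × ℝ × ℝ × ℝ => B v.1 v.2.1 v.2.2.1 v.2.2.2)) (st : List RStep) :
    ∀ Q n n' e ν ν' : ℝ, ∫⁻ w : ℝ, CI R (B w) st Q n n' e ν ν' =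
      CI R (fun Q ν ν' => ∫⁻ w : ℝ, B w Q ν ν') st Q n n' e ν ν' := by
  induction st with
  | nil => intro Q n n' e ν ν'; rfl
  | cons s st ih =>
    intro Q n n' e ν ν'
    simp only [CI]
    rw [lintegral_lintegral_swap]
    · exact lintegral_congr fun v => ih _ _ _ _ _ _
    · have h1 := CI_meas R B hB st (ℝ × (ℝ × ℝ × ℝ)) (fun t => t.1)
        (fun t => Q + t.2.1 ^ 2 + t.2.2.1 ^ 2 + t.2.2.2 ^ 2)
        (fun t => s.1 * n + t.2.1) (fun t => s.1 * n' + t.2.2.1) (fun t => R * e + 2 + t.2.2.2)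
        (fun t => ν + s.2.2.1 * (s.1 * n + t.2.1) - s.2.2.2 * (R * e + 2 + t.2.2.2))
        (fun t => ν' + s.2.2.1 * (s.1 * n' + t.2.2.1))
        (by fun_prop) (by fun_prop) (by fun_prop) (by fun_prop) (by fun_prop) (by fun_prop) (by fun_prop)
      exact h1.aemeasurable

theorem CI_add (R : ℝ) (B B' : ℝ → ℝ → ℝ → ENNReal) (hB : Measurable (fun v : ℝ × ℝ × ℝ => B v.1 v.2.1 v.2.2))
    (st : List RStep) : ∀ Q n n' e ν ν' : ℝ, CI R (fun Q ν ν' => B Q ν ν' + B' Q ν ν') st Q n n' e ν ν' =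
      CI R B st Q n n' e ν ν' + CI R B' st Q n n' e ν ν' := by
  induction st with
  | nil => intro Q n n' e ν ν'; rfl
  | cons s st ih =>
    intro Q n n' e ν ν'
    simp only [CI]
    rw [← lintegral_add_left]
    · exact lintegral_congr fun v => ih _ _ _ _ _ _
    · have h1 := CI_meas R (fun _ => B) (hB.comp (measurable_snd)) st (ℝ × ℝ × ℝ) (fun t => 0)
        (fun t => Q + t.1 ^ 2 + t.2.1 ^ 2 + t.2.2 ^ 2)
        (fun t => s.1 * n + t.1) (fun t => s.1 * n' + t.2.1) (fun t => R * e + 2 + t.2.2)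
        (fun t => ν + s.2.2.1 * (s.1 * n + t.1) - s.2.2.2 * (R * e + 2 + t.2.2))
        (fun t => ν' + s.2.2.1 * (s.1 * n' + t.2.1))
        (by fun_prop) (by fun_prop) (by fun_prop) (by fun_prop) (by fun_prop) (by fun_prop) (by fun_prop)
      exact h1

/-- the sign of the second error -/
def flip : (ℝ × ℝ × ℝ) ≃ᵐ (ℝ × ℝ × ℝ) :=
  MeasurableEquiv.prodCongr (MeasurableEquiv.refl ℝ) (MeasurableEquiv.prodCongr (MeasurableEquiv.neg ℝ)
    (MeasurableEquiv.refl ℝ))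

theorem flip_mp : MeasurePreserving flip (volume : Measure (ℝ × ℝ × ℝ)) volume :=
  (MeasurePreserving.id volume).prod ((Measure.measurePreserving_neg volume).prod (MeasurePreserving.id volume))

theorem CI_neg (R : ℝ) (B : ℝ → ℝ → ℝ → ENNReal) (st : List RStep) : ∀ Q n n' e ν ν' : ℝ,
    CI R B st Q n n' e ν ν' = CI R (fun Q ν ν' => B Q ν (-ν')) st Q n (-n') e ν (-ν') := by
  induction st with
  | nil => intro Q n n' e ν ν'; simp [CI]
  | cons s st ih =>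
    intro Q n n' e ν ν'
    simp only [CI]
    rw [← flip_mp.lintegral_comp_emb flip.measurableEmbedding (fun v : ℝ × ℝ × ℝ =>
      CI R (fun Q ν ν' => B Q ν (-ν')) st (Q + v.1 ^ 2 + v.2.1 ^ 2 + v.2.2 ^ 2)
      (s.1 * n + v.1) (s.1 * -n' + v.2.1) (R * e + 2 + v.2.2)
      (ν + s.2.2.1 * (s.1 * n + v.1) - s.2.2.2 * (R * e + 2 + v.2.2)) (-ν' + s.2.2.1 * (s.1 * -n' + v.2.1)))]
    refine lintegral_congr fun v => ?_
    rw [ih]
    have e1 : (flip v).1 = v.1 := rfl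
    have e2 : (flip v).2.1 = -v.2.1 := rfl
    have e3 : (flip v).2.2 = v.2.2 := rfl
    simp only [e1, e2, e3]
    congr 1 <;> ring

theorem CI_const (R : ℝ) (Ψ : ℝ → ENNReal) (st : List RStep) : ∀ Q n n' e ν ν' : ℝ,
    CI R (fun Q _ _ => Ψ Q) st Q n n' e ν ν' = J3^[st.length] Ψ Q := by
  induction st with
  | nil => intro Q n n' e ν ν'; rfl
  | cons s st ih =>
    intro Q n n' e ν ν'
    simp only [CI, List.length_cons, Function.iterate_succ_apply', J3]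
    exact lintegral_congr fun v => ih _ _ _ _ _ _

/-- the condition for a step -/
def Ok (R : ℝ) (s : RStep) : Prop := |s.1| ≤ R ∧ 3 * |s.2.2.1| ≤ s.2.2.2

theorem CI_congr (R : ℝ) (B B' : ℝ → ℝ → ℝ → ENNReal)
    (hB : ∀ Q ν ν', (1 ≤ Q ∨ (0 ≤ Q ∧ 2 * |ν'| ≤ -ν)) → B Q ν ν' = B' Q ν ν') (st : List RStep) :
    ∀ Q n n' e ν ν' : ℝ, (1 ≤ Q ∨ (0 ≤ Q ∧ (∀ s ∈ st, Ok R s) ∧ |n| ≤ e ∧ |n'| ≤ e ∧ 2 * |ν'| ≤ -ν)) →
      CI R B st Q n n' e ν ν' = CI R B' st Q n n' e ν ν' := by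
  induction st with
  | nil =>
    intro Q n n' e ν ν' h
    exact hB _ _ _ (h.imp id fun h => ⟨h.1, h.2.2.2.2⟩)
  | cons s st ih =>
    intro Q n n' e ν ν' h
    simp only [CI]
    refine lintegral_congr fun v => ih _ _ _ _ _ _ ?_
    have a1 := sq_nonneg v.1
    have a2 := sq_nonneg v.2.1
    have a3 := sq_nonneg v.2.2
    by_cases hQ' : 1 ≤ Q + v.1 ^ 2 + v.2.1 ^ 2 + v.2.2 ^ 2
    · exact Or.inl hQ'
    rcases h with h | ⟨hQ, hs, h1, h2, h3⟩
    · exact Or.inl (by linarith)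
    right
    push Not at hQ'
    have b1 := abs_lt_of_sq_lt_sq (by linarith : v.1 ^ 2 < 1 ^ 2) (by norm_num)
    have b2 := abs_lt_of_sq_lt_sq (by linarith : v.2.1 ^ 2 < 1 ^ 2) (by norm_num)
    have b3 := abs_lt_of_sq_lt_sq' (by linarith : v.2.2 ^ 2 < 1 ^ 2) (by norm_num)
    obtain ⟨c1, c2⟩ := hs s (by simp)
    have c3 : (0 : ℝ) ≤ |s.2.2.1| := abs_nonneg _
    have e0 : 0 ≤ e := (abs_nonneg _).trans h1
    have d1 : |s.1 * n + v.1| ≤ R * e + 1 := by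
      refine (abs_add_le _ _).trans ?_
      rw [abs_mul]
      exact add_le_add (mul_le_mul c1 h1 (abs_nonneg _) ((abs_nonneg _).trans c1)) b1.le
    have d2 : |s.1 * n' + v.2.1| ≤ R * e + 1 := by
      refine (abs_add_le _ _).trans ?_
      rw [abs_mul]
      exact add_le_add (mul_le_mul c1 h2 (abs_nonneg _) ((abs_nonneg _).trans c1)) b2.le
    have d3 : R * e + 1 ≤ R * e + 2 + v.2.2 := by linarith [b3.1]
    have d4 : 0 ≤ R * e + 2 + v.2.2 := ((abs_nonneg _).trans d1).trans d3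
    refine ⟨by positivity, fun t ht => hs t (by simp [ht]), d1.trans d3, d2.trans d3, ?_⟩
    have f1 : |ν' + s.2.2.1 * (s.1 * n' + v.2.1)| ≤ |ν'| + |s.2.2.1| * (R * e + 2 + v.2.2) := by
      refine (abs_add_le _ _).trans ?_
      rw [abs_mul]
      exact add_le_add le_rfl (mul_le_mul_of_nonneg_left (d2.trans d3) c3)
    have f2 : s.2.2.1 * (s.1 * n + v.1) ≤ |s.2.2.1| * (R * e + 2 + v.2.2) := by
      refine (le_abs_self _).trans ?_
      rw [abs_mul]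
      exact mul_le_mul_of_nonneg_left (d1.trans d3) c3
    have f3 : 3 * |s.2.2.1| * (R * e + 2 + v.2.2) ≤ s.2.2.2 * (R * e + 2 + v.2.2) :=
      mul_le_mul_of_nonneg_right c2 d4
    linarith

end Pool.Agent.H839.PV.QQ
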