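import Pool.Agent.H839.PV.QQ.Chain
import Pool.Agent.H839.PV.MergeL

/-!
# The volume of the fibre
-/

set_option autoImplicit false

namespace Pool.Agent.H839.PV.QQ

open MeasureTheory Set

theorem J3_two (Φ : ℝ → ENNReal) (k : ℕ) : ∀ Q, J3^[k] (fun Q => 2 * Φ Q) Q = 2 * J3^[k] Φ Q := by
  induction k with
  | zero => intro Q; rfl
  | succ k ih =>
    intro Q
    rw [Function.iterate_succ_apply', Function.iterate_succ_apply']
    unfold J3
    rw [← lintegral_const_mul' _ _ (by simp)]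
    exact lintegral_congr fun v => ih _

theorem J3_zero (k : ℕ) : ∀ Q, J3^[k] (fun _ => 0) Q = 0 := by
  induction k with
  | zero => intro Q; rfl
  | succ k ih =>
    intro Q
    rw [Function.iterate_succ_apply']
    unfold J3
    rw [lintegral_congr (g := fun _ => 0), lintegral_zero]
    exact fun v => ih _

theorem chain_val {Ψ : ℝ → ENNReal} (h : Good Ψ) (R Q : ℝ) (hQ : 0 ≤ Q) (st : List RStep)
    (hs : 1 ≤ Q ∨ ∀ s ∈ st, Ok R s) :
    ∫⁻ w : ℝ, CH R (w ^ 2) (fun Q o o' => ENNReal.ofReal |o'| * (ENNReal.ofReal |w|⁻¹ * Ψ (Q + (o - 2) ^ 2)))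
      st Q 0 0 0 0 0 = if 0 < fin st 0 0 then J3^[st.length] (J Ψ) Q else 0 := by
  set A := fin st 0 0 with hA
  set Bw : ℝ → ℝ → ℝ → ℝ → ENNReal := fun w Q ν ν' =>
    ENNReal.ofReal |A * w ^ 2 + ν'| * (ENNReal.ofReal |w|⁻¹ * Ψ (Q + (A * w ^ 2 + ν - 2) ^ 2)) with hBw
  have h1 : ∀ w : ℝ, CH R (w ^ 2) (fun Q o o' => ENNReal.ofReal |o'| *
      (ENNReal.ofReal |w|⁻¹ * Ψ (Q + (o - 2) ^ 2))) st Q 0 0 0 0 0 = CI R (Bw w) st Q 0 0 0 0 0 := by
    intro w
    have h2 := CH_eq R (w ^ 2) (fun Q o o' => ENNReal.ofReal |o'| *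
      (ENNReal.ofReal |w|⁻¹ * Ψ (Q + (o - 2) ^ 2))) st Q 0 0 0 0 0 0 0
    simp only [zero_mul, zero_add] at h2
    rw [h2]
  rw [lintegral_congr h1, CI_swap R Bw]
  · have hP : 1 ≤ Q ∨ (0 ≤ Q ∧ (∀ s ∈ st, Ok R s) ∧ |(0 : ℝ)| ≤ 0 ∧ |(0 : ℝ)| ≤ 0 ∧ 2 * |(0 : ℝ)| ≤ -0) :=
      hs.imp id fun h => ⟨hQ, h, by simp, by simp, by simp⟩
    split_ifs with hA0
    · set Bp : ℝ → ℝ → ℝ → ENNReal := fun Q ν ν' =>
        ∫⁻ p : ℝ, ENNReal.ofReal (1 + ν' / (p + 2 - ν)) * Ψ (Q + p ^ 2) with hBp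
      rw [CI_congr R _ Bp (fun Q ν ν' hP => wint h hA0 hP) st _ _ _ _ _ _ hP]
      have hm : Measurable (fun v : ℝ × ℝ × ℝ => Bp v.1 v.2.1 v.2.2) := by
        have h2 : Measurable (fun t : (ℝ × ℝ × ℝ) × ℝ =>
            ENNReal.ofReal (1 + t.1.2.2 / (t.2 + 2 - t.1.2.1)) * Ψ (t.1.1 + t.2 ^ 2)) := by
          refine Measurable.mul ?_ (h.meas.comp (by fun_prop))
          exact ENNReal.measurable_ofReal.comp (by fun_prop)
        exact h2.lintegral_prod_right'
      have h3 : CI R Bp st Q 0 0 0 0 0 = CI R (fun Q ν ν' => Bp Q ν (-ν')) st Q 0 0 0 0 0 := by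
        have := CI_neg R Bp st Q 0 0 0 0 0
        simpa only [neg_zero] using this
      have h4 : CI R Bp st Q 0 0 0 0 0 + CI R (fun Q ν ν' => Bp Q ν (-ν')) st Q 0 0 0 0 0 =
          2 * J3^[st.length] (J Ψ) Q := by
        rw [← CI_add R Bp _ hm, CI_congr R _ (fun Q _ _ => 2 * J Ψ Q) (fun Q ν ν' hP => symm h hP) st _ _ _ _ _ _ hP,
          CI_const R (fun Q => 2 * J Ψ Q), J3_two]
      rw [← h3, ← two_mul] at h4
      exact (ENNReal.mul_right_inj (by simp) (by simp)).1 h4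
    · rw [CI_congr R _ (fun _ _ _ => 0) (fun Q ν ν' hP => wint0 h (not_lt.1 hA0) hP) st _ _ _ _ _ _ hP,
        CI_const R (fun _ => 0), J3_zero]
  · refine Measurable.mul (ENNReal.measurable_ofReal.comp (by fun_prop)) (Measurable.mul ?_ (h.meas.comp (by fun_prop)))
    exact ENNReal.measurable_ofReal.comp (by fun_prop)

/-! ### Iterated integrals -/

/-- the integral over the coordinates `m, ..., m + k - 1` -/
noncomputable def IT : ℕ → ℕ → ((ℕ → ℝ) → ENNReal) → (ℕ → ℝ) → ENNReal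
  | _, 0, Φ, X => Φ X
  | m, k + 1, Φ, X => ∫⁻ y : ℝ, IT (m + 1) k Φ (Function.update X m y)

theorem IT_meas {Φ : (ℕ → ℝ) → ENNReal} (h : Measurable Φ) (k : ℕ) : ∀ m, Measurable (IT m k Φ) := by
  induction k with
  | zero => intro m; exact h
  | succ k ih =>
    intro m
    have h1 : Measurable (fun p : (ℕ → ℝ) × ℝ => IT (m + 1) k Φ (Function.update p.1 m p.2)) :=
      (ih (m + 1)).comp measurable_update'
    exact h1.lintegral_prod_right'

theorem IT_congr {Φ Φ' : (ℕ → ℝ) → ENNReal} (k : ℕ) : ∀ (m : ℕ) (X : ℕ → ℝ),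
    (∀ Y : ℕ → ℝ, (∀ i < m, Y i = X i) → Φ Y = Φ' Y) → IT m k Φ X = IT m k Φ' X := by
  induction k with
  | zero => intro m X h; exact h X fun i _ => rfl
  | succ k ih =>
    intro m X h
    simp only [IT]
    refine lintegral_congr fun y => ih _ _ fun Y hY => h Y fun i hi => ?_
    rw [hY i (by omega), Function.update_of_ne (by omega)]

theorem last {Φ : (ℕ → ℝ) → ENNReal} (h : Measurable Φ) (n : ℕ) :
    ∫⁻ x : Fin (n + 1) → ℝ, Φ (TH960.PE.ext x) =
      ∫⁻ x : Fin n → ℝ, ∫⁻ y : ℝ, Φ (Function.update (TH960.PE.ext x) n y) := by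
  have h1 := (volume_preserving_piFinSuccAbove (fun _ : Fin (n + 1) => ℝ) (Fin.last n)).symm
  rw [← h1.lintegral_comp_emb (MeasurableEquiv.measurableEmbedding _)]
  have e : ∀ p : ℝ × (Fin n → ℝ), TH960.PE.ext ((MeasurableEquiv.piFinSuccAbove (fun _ : Fin (n + 1) => ℝ)
      (Fin.last n)).symm p) = Function.update (TH960.PE.ext p.2) n p.1 := by
    intro p
    rw [MeasurableEquiv.piFinSuccAbove_symm_apply]
    funext i
    rcases lt_trichotomy i n with hi | rfl | hi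
    · rw [Function.update_of_ne (by omega), ext_of_lt _ hi, ext_of_lt _ (by omega : i < n + 1)]
      have : (⟨i, by omega⟩ : Fin (n + 1)) = (Fin.last n).succAbove ⟨i, hi⟩ := by
        rw [Fin.succAbove_last]; rfl
      rw [this]
      exact Fin.insertNth_apply_succAbove (α := fun _ : Fin (n + 1) => ℝ) (Fin.last n) p.1 p.2 ⟨i, hi⟩
    · rw [Function.update_self, ext_of_lt _ (by omega : i < i + 1)]
      exact Fin.insertNth_apply_same (α := fun _ : Fin (i + 1) => ℝ) (Fin.last i) p.1 p.2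
    · rw [Function.update_of_ne (by omega)]
      simp only [TH960.PE.ext]
      rw [dif_neg (by omega), dif_neg (by omega)]
  have hx : Measurable (fun p : ℝ × (Fin n → ℝ) => Function.update (TH960.PE.ext p.2) n p.1) := by
    rw [measurable_pi_iff]
    intro i
    by_cases hi : i = n
    · subst hi
      simp only [Function.update_self]
      exact measurable_fst
    · simp only [Function.update_of_ne hi, TH960.PE.ext]
      split_ifs with h2
      · fun_prop
      · fun_prop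
  simp only [e]
  exact lintegral_prod_symm' (μ := (volume : Measure ℝ)) (ν := (volume : Measure (Fin n → ℝ)))
    (fun p : ℝ × (Fin n → ℝ) => Φ (Function.update (TH960.PE.ext p.2) n p.1)) (h.comp hx)

theorem vol_IT {Φ : (ℕ → ℝ) → ENNReal} (h : Measurable Φ) (k : ℕ) : ∀ (n N : ℕ), N = n + k →
    ∫⁻ x : Fin N → ℝ, Φ (TH960.PE.ext x) = ∫⁻ x : Fin n → ℝ, IT n k Φ (TH960.PE.ext x) := by
  induction k with
  | zero => intro n N hN; subst hN; rfl
  | succ k ih =>
    intro n N hN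
    rw [ih (n + 1) N (by omega), last (IT_meas h k (n + 1)) n]
    rfl

/-! ### Reading the coordinates -/

/-- the function to be integrated -/
noncomputable def rd (R w : ℝ) : List RStep → ℕ → ℝ → ℝ → ℝ → ℝ → ℝ → ℝ → (ℕ → ℝ) → ENNReal
  | [], m, Q, _, _, _, o, o', X => Ψ0 (Q + (o - 2) ^ 2 + (X m * w - 2) ^ 2 + (X (m + 1) * o' - 2) ^ 2 +
      (X (m + 2) * X (m + 1) - 2) ^ 2 + (X (m + 3) * X (m + 1) - 2) ^ 2)
  | s :: st, m, Q, z, z', e, o, o', X => rd R w st (m + 3)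
      (Q + (X m - (s.1 * z + s.2.1 * w ^ 2)) ^ 2 + (X (m + 1) - (s.1 * z' + s.2.1 * w ^ 2)) ^ 2 +
        (X (m + 2) - (R * e + 2)) ^ 2) (X m) (X (m + 1)) (X (m + 2))
      (o + s.2.2.1 * X m - s.2.2.2 * X (m + 2)) (o' + s.2.2.1 * X (m + 1)) X

/-- the function of `Q` after the integration over the last four variables -/
noncomputable def Ψ4 : ℝ → ENNReal := J (Jr (J (J Ψ0)))

theorem good4 : Good Ψ4 := good_J (good_Jr (good_J (good_J good0)))

/-- the function of `Q` and of the two outputs -/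
noncomputable def GG (w : ℝ) (Q o o' : ℝ) : ENNReal :=
  ENNReal.ofReal |o'| * (ENNReal.ofReal |w|⁻¹ * Ψ4 (Q + (o - 2) ^ 2))

theorem last4 (w Q o o' : ℝ) (hQ : 0 ≤ Q) :
    ∫⁻ t : ℝ, ∫⁻ r : ℝ, ∫⁻ s : ℝ, ∫⁻ s' : ℝ, Ψ0 (Q + (o - 2) ^ 2 + (t * w - 2) ^ 2 + (r * o' - 2) ^ 2 +
      (s * r - 2) ^ 2 + (s' * r - 2) ^ 2) = GG w Q o o' := by
  have h1 : ∀ t r s : ℝ, ∫⁻ s' : ℝ, Ψ0 (Q + (o - 2) ^ 2 + (t * w - 2) ^ 2 + (r * o' - 2) ^ 2 +
      (s * r - 2) ^ 2 + (s' * r - 2) ^ 2) = ENNReal.ofReal |r|⁻¹ * J Ψ0 (Q + (o - 2) ^ 2 + (t * w - 2) ^ 2 +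
      (r * o' - 2) ^ 2 + (s * r - 2) ^ 2) := fun t r s => affine good0 _ _ (by positivity)
  simp only [h1]
  have h2 : ∀ t r : ℝ, ∫⁻ s : ℝ, ENNReal.ofReal |r|⁻¹ * J Ψ0 (Q + (o - 2) ^ 2 + (t * w - 2) ^ 2 +
      (r * o' - 2) ^ 2 + (s * r - 2) ^ 2) = ENNReal.ofReal |r|⁻¹ * (ENNReal.ofReal |r|⁻¹ *
      J (J Ψ0) (Q + (o - 2) ^ 2 + (t * w - 2) ^ 2 + (r * o' - 2) ^ 2)) := by
    intro t r
    rw [lintegral_const_mul' _ _ ENNReal.ofReal_ne_top, affine (good_J good0) _ _ (by positivity)]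
  simp only [h2]
  have h3 : ∀ t : ℝ, ∫⁻ r : ℝ, ENNReal.ofReal |r|⁻¹ * (ENNReal.ofReal |r|⁻¹ *
      J (J Ψ0) (Q + (o - 2) ^ 2 + (t * w - 2) ^ 2 + (r * o' - 2) ^ 2)) =
      ENNReal.ofReal |o'| * Jr (J (J Ψ0)) (Q + (o - 2) ^ 2 + (t * w - 2) ^ 2) := by
    intro t
    exact affine2 (good_J (good_J good0)) _ _ (by positivity)
  simp only [h3]
  rw [lintegral_const_mul' _ _ ENNReal.ofReal_ne_top, affine (good_Jr (good_J (good_J good0))) _ _ (by positivity)]
  rfl

theorem GG_meas (w : ℝ) : Measurable (fun v : ℝ × ℝ × ℝ => GG w v.1 v.2.1 v.2.2) := by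
  unfold GG
  refine Measurable.mul (ENNReal.measurable_ofReal.comp (by fun_prop)) (Measurable.const_mul ?_ _)
  exact good4.meas.comp (by fun_prop)

theorem CH_meas (R w : ℝ) (st : List RStep) (T : Type) [MeasurableSpace T] (Q z z' e o o' : T → ℝ) (h1 : Measurable Q)
    (h2 : Measurable z) (h3 : Measurable z') (h4 : Measurable e) (h5 : Measurable o) (h6 : Measurable o') :
    Measurable (fun t => CH R (w ^ 2) (GG w) st (Q t) (z t) (z' t) (e t) (o t) (o' t)) := by
  have h : ∀ Q z z' e o o' : ℝ, CH R (w ^ 2) (GG w) st Q z z' e o o' =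
      CI R (fun Q ν ν' => GG w Q (fin st 0 0 * w ^ 2 + ν) (fin st 0 0 * w ^ 2 + ν')) st Q z z' e o o' := by
    intro Q z z' e o o'
    have := CH_eq R (w ^ 2) (GG w) st Q 0 z z' e 0 o o'
    simpa only [zero_mul, zero_add] using this
  simp only [h]
  refine CI_meas R (fun _ Q ν ν' => GG w Q (fin st 0 0 * w ^ 2 + ν) (fin st 0 0 * w ^ 2 + ν')) ?_ st T (fun _ => 0)
    Q z z' e o o' measurable_const h1 h2 h3 h4 h5 h6
  have h7 : Measurable (fun v : ℝ × ℝ × ℝ × ℝ => ((v.2.1, fin st 0 0 * w ^ 2 + v.2.2.1,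
    fin st 0 0 * w ^ 2 + v.2.2.2) : ℝ × ℝ × ℝ)) := by fun_prop
  exact (GG_meas w).comp h7

theorem rd_IT (R w : ℝ) (st : List RStep) : ∀ (m : ℕ) (Q z z' e o o' : ℝ) (X : ℕ → ℝ), 0 ≤ Q →
    IT m (3 * st.length + 4) (rd R w st m Q z z' e o o') X = CH R (w ^ 2) (GG w) st Q z z' e o o' := by
  induction st with
  | nil =>
    intro m Q z z' e o o' X hQ
    rw [CH, ← last4 w Q o o' hQ]
    simp only [List.length_nil, Nat.mul_zero, IT, rd]
    refine lintegral_congr fun t => lintegral_congr fun r => lintegral_congr fun s => lintegral_congr fun s' => ?_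
    have e1 : m ≠ m + 1 := by omega
    have e2 : m ≠ m + 1 + 1 := by omega
    have e3 : m ≠ m + 1 + 1 + 1 := by omega
    have e4 : m + 1 ≠ m + 1 + 1 := by omega
    have e5 : m + 1 ≠ m + 1 + 1 + 1 := by omega
    have e6 : m + 2 ≠ m + 1 + 1 + 1 := by omega
    have f1 : Function.update (Function.update (Function.update (Function.update X m t) (m + 1) r) (m + 1 + 1) s)
        (m + 1 + 1 + 1) s' m = t := by
      rw [Function.update_of_ne e3, Function.update_of_ne e2, Function.update_of_ne e1, Function.update_self]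
    have f2 : Function.update (Function.update (Function.update (Function.update X m t) (m + 1) r) (m + 1 + 1) s)
        (m + 1 + 1 + 1) s' (m + 1) = r := by
      rw [Function.update_of_ne e5, Function.update_of_ne e4, Function.update_self]
    have f3 : Function.update (Function.update (Function.update (Function.update X m t) (m + 1) r) (m + 1 + 1) s)
        (m + 1 + 1 + 1) s' (m + 2) = s := by
      rw [Function.update_of_ne e6]
      exact Function.update_self _ _ _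
    have f4 : Function.update (Function.update (Function.update (Function.update X m t) (m + 1) r) (m + 1 + 1) s)
        (m + 1 + 1 + 1) s' (m + 3) = s' := Function.update_self _ _ _
    rw [f1, f2, f3, f4]
  | cons s st ih =>
    intro m Q z z' e o o' X hQ
    have hl : 3 * (s :: st).length + 4 = (3 * st.length + 4) + 1 + 1 + 1 := by
      rw [List.length_cons]; ring
    rw [hl]
    change ∫⁻ y1 : ℝ, ∫⁻ y2 : ℝ, ∫⁻ y3 : ℝ, IT (m + 1 + 1 + 1) (3 * st.length + 4) (rd R w (s :: st) m Q z z' e o o')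
        (Function.update (Function.update (Function.update X m y1) (m + 1) y2) (m + 1 + 1) y3) = _
    set F : ℝ × ℝ × ℝ → ENNReal := fun y => CH R (w ^ 2) (GG w) st
      (Q + (y.1 - (s.1 * z + s.2.1 * w ^ 2)) ^ 2 + (y.2.1 - (s.1 * z' + s.2.1 * w ^ 2)) ^ 2 +
        (y.2.2 - (R * e + 2)) ^ 2) y.1 y.2.1 y.2.2
      (o + s.2.2.1 * y.1 - s.2.2.2 * y.2.2) (o' + s.2.2.1 * y.2.1) with hF
    have h1 : ∀ y1 y2 y3 : ℝ, IT (m + 1 + 1 + 1) (3 * st.length + 4) (rd R w (s :: st) m Q z z' e o o')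
        (Function.update (Function.update (Function.update X m y1) (m + 1) y2) (m + 1 + 1) y3) = F (y1, y2, y3) := by
      intro y1 y2 y3
      rw [IT_congr (Φ' := rd R w st (m + 3) (Q + (y1 - (s.1 * z + s.2.1 * w ^ 2)) ^ 2 +
        (y2 - (s.1 * z' + s.2.1 * w ^ 2)) ^ 2 + (y3 - (R * e + 2)) ^ 2) y1 y2 y3
        (o + s.2.2.1 * y1 - s.2.2.2 * y3) (o' + s.2.2.1 * y2))]
      · exact ih _ _ _ _ _ _ _ _ (by positivity)
      · intro Y hY
        have a1 : Y m = y1 := by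
          rw [hY m (by omega), Function.update_of_ne (by omega), Function.update_of_ne (by omega),
            Function.update_self]
        have a2 : Y (m + 1) = y2 := by
          rw [hY (m + 1) (by omega), Function.update_of_ne (by omega), Function.update_self]
        have a3 : Y (m + 2) = y3 := by
          rw [hY (m + 2) (by omega)]
          exact Function.update_self _ _ _
        rw [rd, a1, a2, a3]
    simp only [h1]
    have hFm : Measurable F := CH_meas R w st _ _ _ _ _ _ _ (by fun_prop) (by fun_prop) (by fun_prop) (by fun_prop)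
      (by fun_prop) (by fun_prop)
    have h2 : ∫⁻ y1 : ℝ, ∫⁻ y2 : ℝ, ∫⁻ y3 : ℝ, F (y1, y2, y3) = ∫⁻ y : ℝ × ℝ × ℝ, F y := by
      rw [Measure.volume_eq_prod, lintegral_prod _ hFm.aemeasurable]
      refine lintegral_congr fun y1 => ?_
      rw [Measure.volume_eq_prod, lintegral_prod (fun y : ℝ × ℝ => F (y1, y))
        (hFm.comp measurable_prodMk_left).aemeasurable]
    have i1 : (volume : Measure (ℝ × ℝ)).IsAddRightInvariant :=
      inferInstanceAs ((volume : Measure ℝ).prod (volume : Measure ℝ)).IsAddRightInvariant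
    have i2 : (volume : Measure (ℝ × ℝ × ℝ)).IsAddRightInvariant :=
      (Measure.prod.instIsAddRightInvariant :
        ((volume : Measure ℝ).prod (volume : Measure (ℝ × ℝ))).IsAddRightInvariant)
    rw [h2, CH, ← lintegral_add_right_eq_self F (s.1 * z + s.2.1 * w ^ 2, s.1 * z' + s.2.1 * w ^ 2, R * e + 2)]
    refine lintegral_congr fun v => ?_
    simp only [hF, Prod.fst_add, Prod.snd_add]
    congr 1 <;> ring

end Pool.Agent.H839.PV.QQ
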