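import Pool.Agent.H839.PV.QQ.Steps

/-!
# Computability of the reduction
-/

set_option autoImplicit false
set_option synthInstance.maxSize 4000

namespace Pool.Agent.H839.PV.QQ

open TH960.PE

section comb

variable {α : Type} [Primcodable α]

theorem c_mul {f g : α → Poly} (hf : Primrec f) (hg : Primrec g) : Primrec (fun p => pmul (f p) (g p)) :=
  prim_pmul.comp hf hg

theorem c_sub {f g : α → Poly} (hf : Primrec f) (hg : Primrec g) : Primrec (fun p => psub (f p) (g p)) :=
  prim_psub.comp hf hg

theorem c_app {f g : α → Poly} (hf : Primrec f) (hg : Primrec g) : Primrec (fun p => f p ++ g p) :=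
  Primrec.list_append.comp hf hg

theorem c_neg {f : α → Poly} (hf : Primrec f) : Primrec (fun p => pneg (f p)) := prim_pneg.comp hf

theorem c_sq {f : α → Poly} (hf : Primrec f) : Primrec (fun p => sq (f p)) := prim_sq.comp hf

theorem c_var {f : α → ℕ} (hf : Primrec f) : Primrec (fun p => var (f p)) := prim_var.comp hf

theorem c_cst {f : α → ℕ} (hf : Primrec f) : Primrec (fun p => cst (f p)) := prim_cst.comp hf

theorem c_add {f : α → ℕ} (hf : Primrec f) (k : ℕ) : Primrec (fun p => f p + k) :=
  Primrec.nat_add.comp hf (Primrec.const k)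

theorem c_cons {f : α → Poly} {g : α → List Poly} (hf : Primrec f) (hg : Primrec g) :
    Primrec (fun p => f p :: g p) := Primrec.list_cons.comp hf hg

end comb

theorem prim_stp : Primrec (fun x : ℕ × State × Stp => stp x.1 x.2.1 x.2.2) := by
  have n0 : Primrec (fun x : ℕ × State × Stp => x.1) := Primrec.fst
  have s : Primrec (fun x : ℕ × State × Stp => x.2.1) := Primrec.fst.comp Primrec.snd
  have t : Primrec (fun x : ℕ × State × Stp => x.2.2) := Primrec.snd.comp Primrec.snd
  have s1 : Primrec (fun x : ℕ × State × Stp => x.2.1.1) := Primrec.fst.comp s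
  have r1 : Primrec (fun x : ℕ × State × Stp => x.2.1.2) := Primrec.snd.comp s
  have s2 : Primrec (fun x : ℕ × State × Stp => x.2.1.2.1) := Primrec.fst.comp r1
  have r2 : Primrec (fun x : ℕ × State × Stp => x.2.1.2.2) := Primrec.snd.comp r1
  have s3 : Primrec (fun x : ℕ × State × Stp => x.2.1.2.2.1) := Primrec.fst.comp r2
  have r3 : Primrec (fun x : ℕ × State × Stp => x.2.1.2.2.2) := Primrec.snd.comp r2
  have s4 : Primrec (fun x : ℕ × State × Stp => x.2.1.2.2.2.1) := Primrec.fst.comp r3
  have r4 : Primrec (fun x : ℕ × State × Stp => x.2.1.2.2.2.2) := Primrec.snd.comp r3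
  have s5 : Primrec (fun x : ℕ × State × Stp => x.2.1.2.2.2.2.1) := Primrec.fst.comp r4
  have r5 : Primrec (fun x : ℕ × State × Stp => x.2.1.2.2.2.2.2) := Primrec.snd.comp r4
  have s6 : Primrec (fun x : ℕ × State × Stp => x.2.1.2.2.2.2.2.1) := Primrec.fst.comp r5
  have s7 : Primrec (fun x : ℕ × State × Stp => x.2.1.2.2.2.2.2.2) := Primrec.snd.comp r5
  have t1 : Primrec (fun x : ℕ × State × Stp => x.2.2.1) := Primrec.fst.comp t
  have u1 : Primrec (fun x : ℕ × State × Stp => x.2.2.2) := Primrec.snd.comp t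
  have t2 : Primrec (fun x : ℕ × State × Stp => x.2.2.2.1) := Primrec.fst.comp u1
  have u2 : Primrec (fun x : ℕ × State × Stp => x.2.2.2.2) := Primrec.snd.comp u1
  have t3 : Primrec (fun x : ℕ × State × Stp => x.2.2.2.2.1) := Primrec.fst.comp u2
  have t4 : Primrec (fun x : ℕ × State × Stp => x.2.2.2.2.2) := Primrec.snd.comp u2
  have k3 : Primrec (fun x : ℕ × State × Stp => 3 * (x.2.2.2.2.1 + x.2.2.2.2.2)) :=
    Primrec.nat_mul.comp (Primrec.const 3) (Primrec.nat_add.comp t3 t4)
  have w2 := c_mul (c_cst t2) (c_sq (c_var (c_add n0 1)))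
  have p1 := c_sub (c_var s1) (c_app (c_mul t1 s2) w2)
  have p2 := c_sub (c_var (c_add s1 1)) (c_app (c_mul t1 s3) w2)
  have p3 := c_sub (c_var (c_add s1 2)) (c_app (c_mul (c_var n0) s4) (Primrec.const (cst 2)))
  have o1 := c_app s5 (c_app (c_mul (c_cst t3) (c_var s1)) (c_app (c_neg (c_mul (c_cst t4) (c_var s1)))
    (c_neg (c_mul (c_cst k3) (c_var (c_add s1 2))))))
  have o2 := c_app s6 (c_app (c_mul (c_cst t3) (c_var (c_add s1 1)))
    (c_neg (c_mul (c_cst t4) (c_var (c_add s1 1)))))
  have a1 := Primrec.list_append.comp s7 (c_cons p1 (c_cons p2 (c_cons p3 (Primrec.const []))))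
  exact Primrec.pair (c_add s1 3) (Primrec.pair (c_var s1) (Primrec.pair (c_var (c_add s1 1))
    (Primrec.pair (c_var (c_add s1 2)) (Primrec.pair o1 (Primrec.pair o2 a1)))))

theorem prim_nsq : Primrec nsq := by
  unfold nsq
  refine Primrec.list_flatMap Primrec.list_range ?_
  exact prim_sq.comp (prim_var.comp Primrec.snd)

theorem prim_st0 : Primrec st0 := by
  unfold st0
  have n0 : Primrec (fun n : ℕ => n) := Primrec.id
  have a1 := c_cons (c_sub (c_var n0) (c_app prim_nsq (Primrec.const (cst 2)))) (Primrec.const [])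
  exact Primrec.pair (c_add n0 2) (Primrec.pair (Primrec.const []) (Primrec.pair (Primrec.const [])
    (Primrec.pair (Primrec.const []) (Primrec.pair (Primrec.const []) (Primrec.pair (Primrec.const []) a1)))))

theorem prim_fnl : Primrec (fun x : ℕ × State => fnl x.1 x.2) := by
  unfold fnl
  have n0 : Primrec (fun x : ℕ × State => x.1) := Primrec.fst
  have s : Primrec (fun x : ℕ × State => x.2) := Primrec.snd
  have s1 : Primrec (fun x : ℕ × State => x.2.1) := Primrec.fst.comp s
  have r4 : Primrec (fun x : ℕ × State => x.2.2.2.2.2) :=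
    Primrec.snd.comp (Primrec.snd.comp (Primrec.snd.comp (Primrec.snd.comp s)))
  have s5 : Primrec (fun x : ℕ × State => x.2.2.2.2.2.1) := Primrec.fst.comp r4
  have r5 : Primrec (fun x : ℕ × State => x.2.2.2.2.2.2) := Primrec.snd.comp r4
  have s6 : Primrec (fun x : ℕ × State => x.2.2.2.2.2.2.1) := Primrec.fst.comp r5
  have s7 : Primrec (fun x : ℕ × State => x.2.2.2.2.2.2.2) := Primrec.snd.comp r5
  have c2 : Primrec (fun _ : ℕ × State => cst 2) := Primrec.const _
  exact Primrec.list_append.comp s7 (c_cons (c_sub s5 c2) (c_cons (c_sub (c_mul (c_var s1) (c_var (c_add n0 1))) c2)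
    (c_cons (c_sub (c_mul (c_var (c_add s1 1)) s6) c2)
      (c_cons (c_sub (c_mul (c_var (c_add s1 2)) (c_var (c_add s1 1))) c2)
        (c_cons (c_sub (c_mul (c_var (c_add s1 3)) (c_var (c_add s1 1))) c2) (Primrec.const []))))))

theorem prim_quads : Primrec₂ quads := by
  have h1 : Primrec₂ (fun (x : ℕ × List Stp) (q : State × Stp) => stp x.1 q.1 q.2) :=
    prim_stp.comp (Primrec.pair (Primrec.fst.comp Primrec.fst)
      (Primrec.pair (Primrec.fst.comp Primrec.snd) (Primrec.snd.comp Primrec.snd)))
  have h2 : Primrec (fun x : ℕ × List Stp => x.2.foldl (fun s t => stp x.1 s t) (st0 x.1)) :=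
    Primrec.list_foldl Primrec.snd (prim_st0.comp Primrec.fst) h1
  exact prim_fnl.comp (Primrec.pair Primrec.fst h2)

theorem prim_idx : Primrec idx := by
  unfold idx
  refine Primrec.list_flatMap (Primrec.list_range.comp Primrec.list_length) ?_
  exact prim_replicate.comp ((Primrec.list_getD 0).comp Primrec.fst Primrec.snd) Primrec.snd

theorem prim_mst : Primrec mst := by
  unfold mst
  have a1 : Primrec (fun m : Mono => m.1.1) := Primrec.fst.comp Primrec.fst
  have a2 : Primrec (fun m : Mono => m.1.2.1) := Primrec.fst.comp (Primrec.snd.comp Primrec.fst)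
  have h1 : Primrec₂ (fun (_ : Mono) (i : ℕ) => ((var i, 0, 0, 0) : Stp)) :=
    Primrec.pair (prim_var.comp Primrec.snd) (Primrec.const (0, 0, 0))
  have h2 : Primrec (fun m : Mono => (idx m.2).map (fun i => ((var i, 0, 0, 0) : Stp))) :=
    Primrec.list_map (prim_idx.comp Primrec.snd) h1
  have h3 : Primrec (fun m : Mono => [((cst 1, 0, m.1.1, m.1.2.1) : Stp)]) :=
    Primrec.list_cons.comp (Primrec.pair (Primrec.const (cst 1)) (Primrec.pair (Primrec.const 0)
      (Primrec.pair a1 a2))) (Primrec.const [])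
  exact Primrec.list_cons.comp (Primrec.const _) (Primrec.list_append.comp h2 h3)

theorem prim_steps : Primrec steps := by
  unfold steps
  exact Primrec.list_flatMap Primrec.id (prim_mst.comp Primrec.snd)

theorem prim_stk : Primrec₂ stk := by
  unfold stk
  exact Primrec.list_append.comp (prim_steps.comp Primrec.fst) (prim_replicate.comp Primrec.snd (Primrec.const pad))

theorem prim_nv : Primrec₂ nv := by
  unfold nv
  exact Primrec.nat_add.comp Primrec.fst (c_add (c_add (c_add (Primrec.nat_mul.comp (Primrec.const 3)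
    (Primrec.list_length.comp Primrec.snd)) 4) 1) 1)

theorem prim_ball : Primrec₂ ball := by
  unfold ball
  have h1 : Primrec (fun x : (ℕ × Poly) × ℕ => x.1.1) := Primrec.fst.comp Primrec.fst
  have h2 : Primrec (fun x : (ℕ × Poly) × ℕ => stk x.1.2 x.2) :=
    prim_stk.comp (Primrec.snd.comp Primrec.fst) Primrec.snd
  exact Primrec.pair (prim_nv.comp h1 h2) (prim_quads.comp h1 h2)

theorem prim_red2 : Primrec red2 := by
  unfold red2
  have h1 : Primrec (fun p : (ℕ × Poly) × (ℕ × Poly) => (steps p.2.2).length) :=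
    Primrec.list_length.comp (prim_steps.comp (Primrec.snd.comp Primrec.snd))
  have h2 : Primrec (fun p : (ℕ × Poly) × (ℕ × Poly) => (steps p.1.2).length) :=
    Primrec.list_length.comp (prim_steps.comp (Primrec.snd.comp Primrec.fst))
  exact Primrec.pair (prim_ball.comp Primrec.fst h1) (prim_ball.comp Primrec.snd h2)

/-! ### The decision problems -/

/-- There is an algorithm which halts for every two lists `f`, `g` of polynomials of degree at most `2` with integer
coefficients, in the same number of variables, with finite volumes, and decides whether the volumes are equal. -/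
def BallDecidable : Prop := ∃ φ : (ℕ × List Poly) × (ℕ × List Poly) →. Bool, Partrec φ ∧
  ∀ f g : ℕ × List Poly, f.1 = g.1 → FinBall f → FinBall g → ∃ b ∈ φ (f, g), (b = true ↔ volB f = volB g)

/-- There is an algorithm which halts for every two polynomials `f`, `g` with integer coefficients, of degree at most
`4`, in the same number of variables, with finite volumes of `f > 0` and `g > 0`, and decides whether these volumes
are equal. -/
def QuarticDecidable : Prop := ∃ φ : (ℕ × Poly) × (ℕ × Poly) →. Bool, Partrec φ ∧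
  ∀ f g : ℕ × Poly, f.1 = g.1 → FinVol f → FinVol g → (∀ m ∈ f.2, m.2.sum ≤ 4) → (∀ m ∈ g.2, m.2.sum ≤ 4) →
    ∃ b ∈ φ (f, g), (b = true ↔ volP f = volP g)

theorem vol_of_ball (h : BallDecidable) : VolDecidable := by
  obtain ⟨φ, hφ, hd⟩ := h
  refine ⟨fun x => φ (red2 x), hφ.comp prim_red2.to_comp, ?_⟩
  intro f g hfg hf hg
  obtain ⟨a1, a2, a3, a4⟩ := red2_spec hfg hf hg
  obtain ⟨b, hb, h⟩ := hd _ _ a1 a2 a3
  exact ⟨b, hb, h.trans a4⟩

theorem quartic_of_vol (h : VolDecidable) : QuarticDecidable := by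
  obtain ⟨φ, hφ, hd⟩ := h
  exact ⟨φ, hφ, fun f g hfg hf hg _ _ => hd f g hfg hf hg⟩

/-- `1` minus the sum of the squares -/
def quart (f : ℕ × List Poly) : ℕ × Poly := (f.1, psub (cst 1) (f.2.flatMap sq))

theorem pev_flatMap_sq (X : ℕ → ℝ) (L : List Poly) : pev X (L.flatMap sq) = ssq X L := by
  induction L with
  | nil => simp [pev_nil, ssq]
  | cons p L ih => rw [List.flatMap_cons, pev_append, ih, pev_sq]; simp [ssq]

theorem volP_quart (f : ℕ × List Poly) : volP (quart f) = volB f := by
  unfold volP volB quart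
  congr 1
  ext x
  simp only [pev_psub, pev_cst, pev_flatMap_sq, Set.mem_ofPred_eq, Nat.cast_one, sub_pos]

theorem fit_quart {f : ℕ × List Poly} (h : FinBall f) : Fit f.1 4 (quart f).2 := by
  have h1 : Fit f.1 4 (f.2.flatMap sq) := by
    intro m hm
    obtain ⟨p, hp, hm⟩ := List.mem_flatMap.1 hm
    have h2 : Fit f.1 2 p := fun m hm => ⟨h.isPoly p hp m hm, h.isInt p hp m hm, h.degree p hp m hm⟩
    exact (h2.mul h2) m hm
  exact (fit_cst _ _ _).sub h1

theorem prim_quart : Primrec quart := by
  unfold quart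
  have h1 : Primrec (fun f : ℕ × List Poly => f.2.flatMap sq) :=
    Primrec.list_flatMap Primrec.snd (prim_sq.comp Primrec.snd)
  exact Primrec.pair Primrec.fst (c_sub (Primrec.const (cst 1)) h1)

theorem ball_of_quartic (h : QuarticDecidable) : BallDecidable := by
  obtain ⟨φ, hφ, hd⟩ := h
  refine ⟨fun x => φ (quart x.1, quart x.2), ?_, ?_⟩
  · exact hφ.comp (Primrec.pair (prim_quart.comp Primrec.fst) (prim_quart.comp Primrec.snd)).to_comp
  · intro f g hfg hf hg
    have h1 : ∀ {f : ℕ × List Poly}, FinBall f → FinVol (quart f) := fun {f} hf =>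
      ⟨fun m hm => (fit_quart hf m hm).1, fun m hm => (fit_quart hf m hm).2.1, by
        rw [volP_quart]; exact hf.finite⟩
    obtain ⟨b, hb, h⟩ := hd (quart f) (quart g) hfg (h1 hf) (h1 hg) (fun m hm => (fit_quart hf m hm).2.2)
      (fun m hm => (fit_quart hg m hm).2.2)
    refine ⟨b, hb, h.trans ?_⟩
    rw [volP_quart, volP_quart]

end Pool.Agent.H839.PV.QQ
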