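import Pool.Agent.H839.PV.QQ.Vol

/-!
# The steps of a polynomial and the reduction
-/

set_option autoImplicit false
set_option synthInstance.maxSize 2000

namespace Pool.Agent.H839.PV.QQ

open TH960.PE MeasureTheory

/-- the list of the variables of a monomial -/
def idx (e : List ℕ) : List ℕ := (List.range e.length).flatMap (fun i => List.replicate (e.getD i 0) i)

/-- the steps of a monomial -/
def mst (m : Mono) : List Stp :=
  (([], 1, 0, 0) : Stp) :: ((idx m.2).map (fun i => ((var i, 0, 0, 0) : Stp)) ++ [((cst 1, 0, m.1.1, m.1.2.1) : Stp)])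

/-- the steps of a polynomial -/
def steps (H : Poly) : List Stp := H.flatMap mst

/-- a step without effect -/
def pad : Stp := ([], 0, 0, 0)

theorem prod_idx (e : List ℕ) (X : ℕ → ℝ) : ((idx e).map X).prod = mev X e := by
  rw [mev_getD e e.length X le_rfl, idx]
  generalize e.length = k
  induction k with
  | zero => simp
  | succ k ih =>
    rw [List.range_succ, List.flatMap_append, List.map_append, List.prod_append, ih, Finset.prod_range_succ]
    simp

theorem mem_idx {e : List ℕ} {i : ℕ} (h : i ∈ idx e) : i < e.length := by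
  simp only [idx, List.mem_flatMap, List.mem_range] at h
  obtain ⟨j, hj, h⟩ := h
  rw [(List.mem_replicate.1 h).2]
  exact hj

theorem fin_vars (X : ℕ → ℝ) (l : List RStep) (I : List ℕ) : ∀ ζ A : ℝ,
    fin ((I.map (fun i => ((var i, 0, 0, 0) : Stp))).map (rsp X) ++ l) ζ A = fin l ((I.map X).prod * ζ) A := by
  induction I with
  | nil => intro ζ A; simp
  | cons i I ih =>
    intro ζ A
    simp only [List.map_cons, List.cons_append, fin, ih, List.prod_cons]
    simp only [rsp, pev_var, Nat.cast_zero, sub_zero, zero_mul, add_zero]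
    congr 1
    ring

theorem fin_mst (X : ℕ → ℝ) (l : List RStep) (m : Mono) (hm : m.1.2.2 = 0) (ζ A : ℝ) :
    fin ((mst m).map (rsp X) ++ l) ζ A = fin l (mev X m.2) (A + cv m.1 * mev X m.2) := by
  simp only [mst, List.map_cons, List.map_append, List.map_nil, List.cons_append, List.append_assoc, fin]
  have h := fin_vars X (rsp X (cst 1, 0, m.1.1, m.1.2.1) :: ([] ++ l)) (idx m.2)
  simp only [rsp, pev_nil, Nat.cast_one, Nat.cast_zero, sub_zero, zero_mul, add_zero, zero_add] at h ⊢
  rw [h, fin, prod_idx]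
  simp only [pev_cst, Nat.cast_one, one_mul, mul_one, add_zero, List.nil_append, cv, hm, Nat.cast_zero, zero_add,
    div_one]

theorem fin_steps (X : ℕ → ℝ) (l : List RStep) (H : Poly) (hH : ∀ m ∈ H, m.1.2.2 = 0) : ∀ ζ A : ℝ,
    ∃ ζ' : ℝ, fin ((steps H).map (rsp X) ++ l) ζ A = fin l ζ' (A + pev X H) := by
  induction H with
  | nil => intro ζ A; exact ⟨ζ, by simp [steps, pev_nil]⟩
  | cons m H ih =>
    intro ζ A
    obtain ⟨ζ', h⟩ := ih (fun a ha => hH a (by simp [ha])) (mev X m.2) (A + cv m.1 * mev X m.2)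
    refine ⟨ζ', ?_⟩
    have h1 : steps (m :: H) = mst m ++ steps H := by simp [steps]
    rw [h1, List.map_append, List.append_assoc, fin_mst X _ m (hH m (by simp)), h, pev_cons, add_assoc]

theorem fin_pad (X : ℕ → ℝ) (k : ℕ) : ∀ ζ A : ℝ, fin ((List.replicate k pad).map (rsp X)) ζ A = A := by
  induction k with
  | zero => intro ζ A; rfl
  | succ k ih =>
    intro ζ A
    rw [List.replicate_succ, List.map_cons, fin, ih]
    simp [pad, rsp]

/-- the steps of a polynomial, with `k` more steps without effect -/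
def stk (H : Poly) (k : ℕ) : List Stp := steps H ++ List.replicate k pad

theorem fin_stk (X : ℕ → ℝ) (H : Poly) (hH : ∀ m ∈ H, m.1.2.2 = 0) (k : ℕ) :
    fin ((stk H k).map (rsp X)) 0 0 = pev X H := by
  obtain ⟨ζ', h⟩ := fin_steps X ((List.replicate k pad).map (rsp X)) H hH 0 0
  rw [stk, List.map_append, h, fin_pad, zero_add]

theorem valid_stk {n : ℕ} {H : Poly} (hn : IsPoly n H) (k : ℕ) : ∀ t ∈ stk H k, Valid n t := by
  have h0 : ∀ X : ℕ → ℝ, 0 ≤ ∑ i ∈ Finset.range n, X i ^ 2 := fun X => Finset.sum_nonneg fun i _ => sq_nonneg _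
  intro t ht
  rcases List.mem_append.1 ht with ht | ht
  · simp only [steps, List.mem_flatMap] at ht
    obtain ⟨m, hm, ht⟩ := ht
    simp only [mst, List.mem_cons, List.mem_append, List.mem_map, List.not_mem_nil, or_false] at ht
    rcases ht with rfl | ⟨i, hi, rfl⟩ | rfl
    · refine ⟨fit_nil _ _, fun X => ?_⟩
      rw [pev_nil, abs_zero]
      linarith [h0 X]
    · have hi' : i < n := (mem_idx hi).trans_le (hn m hm)
      refine ⟨fit_var hi', fun X => ?_⟩
      rw [pev_var]
      have h1 : X i ^ 2 ≤ ∑ i ∈ Finset.range n, X i ^ 2 :=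
        Finset.single_le_sum (f := fun i => X i ^ 2) (fun i _ => sq_nonneg _) (Finset.mem_range.2 hi')
      have h2 : |X i| ≤ 1 + X i ^ 2 := by
        nlinarith [sq_nonneg (|X i| - 1), sq_abs (X i), abs_nonneg (X i)]
      linarith
    · refine ⟨fit_cst _ _ _, fun X => ?_⟩
      rw [pev_cst, Nat.cast_one, abs_one]
      linarith [h0 X]
  · rw [(List.mem_replicate.1 ht).2]
    refine ⟨fit_nil _ _, fun X => ?_⟩
    rw [pad, pev_nil, abs_zero]
    linarith [h0 X]

/-- the region of the polynomial, with `k` steps without effect -/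
def ball (f : ℕ × Poly) (k : ℕ) : ℕ × List Poly := (nv f.1 (stk f.2 k), quads f.1 (stk f.2 k))

theorem length_stk (H : Poly) (k : ℕ) : (stk H k).length = (steps H).length + k := by
  simp [stk]

theorem volB_ball {f : ℕ × Poly} (h1 : IsPoly f.1 f.2) (h2 : IsInt f.2) (k : ℕ) :
    volB (ball f k) = KK ((steps f.2).length + k) * volP f := by
  rw [ball, volB_quads (valid_stk h1 k) f.2 (fun X => fin_stk X f.2 h2 k), length_stk]

/-- A list of polynomials in `n` variables, with integer coefficients and of degree at most `2`, such that the set of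
the points where the sum of the squares of the polynomials is less than `1` has a finite volume. -/
structure FinBall (f : ℕ × List Poly) : Prop where
  isPoly : ∀ p ∈ f.2, IsPoly f.1 p
  isInt : ∀ p ∈ f.2, IsInt p
  degree : ∀ p ∈ f.2, ∀ m ∈ p, m.2.sum ≤ 2
  finite : volB f ≠ ⊤

theorem finBall_ball {f : ℕ × Poly} (h : FinVol f) (k : ℕ) : FinBall (ball f k) where
  isPoly p hp m hm := (fit_quads (fun t ht => (valid_stk h.isPoly k t ht).fit) p hp m hm).1
  isInt p hp m hm := (fit_quads (fun t ht => (valid_stk h.isPoly k t ht).fit) p hp m hm).2.1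
  degree p hp m hm := (fit_quads (fun t ht => (valid_stk h.isPoly k t ht).fit) p hp m hm).2.2
  finite := by
    rw [volB_ball h.isPoly h.isInt]
    exact ENNReal.mul_ne_top (KK_ne_top _) h.finite

/-- the pair of regions of a pair of polynomials -/
def red2 (p : (ℕ × Poly) × (ℕ × Poly)) : (ℕ × List Poly) × (ℕ × List Poly) :=
  (ball p.1 (steps p.2.2).length, ball p.2 (steps p.1.2).length)

theorem red2_spec {f g : ℕ × Poly} (h : f.1 = g.1) (hf : FinVol f) (hg : FinVol g) :
    (red2 (f, g)).1.1 = (red2 (f, g)).2.1 ∧ FinBall (red2 (f, g)).1 ∧ FinBall (red2 (f, g)).2 ∧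
      (volB (red2 (f, g)).1 = volB (red2 (f, g)).2 ↔ volP f = volP g) := by
  refine ⟨?_, finBall_ball hf _, finBall_ball hg _, ?_⟩
  · simp only [red2, ball, nv, length_stk, h]
    ring
  · simp only [red2]
    rw [volB_ball hf.isPoly hf.isInt, volB_ball hg.isPoly hg.isInt, add_comm (steps g.2).length]
    exact ENNReal.mul_right_inj (KK_ne_zero _) (KK_ne_top _)

end Pool.Agent.H839.PV.QQ
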