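import Pool.Agent.H839.PV.QQ.Build

/-!
# The volume of the region given by the quadratic polynomials
-/

set_option autoImplicit false
set_option synthInstance.maxSize 2000

namespace Pool.Agent.H839.PV.QQ

open TH960.PE MeasureTheory Set

/-- The volume of the set of the points of `ℝ ^ N` where the sum of the squares of the polynomials of `L` is less
than `1`. -/
noncomputable def volB (f : ℕ × List Poly) : ENNReal := volume {x : Fin f.1 → ℝ | ssq (ext x) f.2 < 1}

theorem meas_mev' (e : List ℕ) : Measurable (fun X : ℕ → ℝ => mev X e) := by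
  have h : (fun X : ℕ → ℝ => mev X e) = fun X => ∏ i ∈ Finset.range e.length, (X i) ^ e.getD i 0 := by
    funext X
    exact mev_getD e _ _ le_rfl
  rw [h]
  exact Finset.measurable_fun_prod _ fun i _ => (measurable_pi_apply i).pow_const _

theorem meas_pev' (P : Poly) : Measurable (fun X : ℕ → ℝ => pev X P) := by
  induction P with
  | nil => simp only [pev_nil]; exact measurable_const
  | cons m P ih =>
    simp only [pev_cons]
    exact (measurable_const.mul (meas_mev' _)).add ih

theorem meas_ssq (L : List Poly) : Measurable (fun X : ℕ → ℝ => ssq X L) := by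
  induction L with
  | nil => simp only [ssq, List.map_nil, List.sum_nil]; exact measurable_const
  | cons p L ih =>
    simp only [ssq, List.map_cons, List.sum_cons]
    exact ((meas_pev' p).pow_const 2).add ih

theorem meas_ext {n : ℕ} : Measurable (ext : (Fin n → ℝ) → (ℕ → ℝ)) := by
  rw [measurable_pi_iff]
  intro i
  simp only [TH960.PE.ext]
  split_ifs with h2
  · fun_prop
  · fun_prop

theorem volB_eq (N : ℕ) (L : List Poly) : volB (N, L) = ∫⁻ x : Fin N → ℝ, Ψ0 (ssq (ext x) L) := by
  have hm : MeasurableSet {x : Fin N → ℝ | ssq (ext x) L < 1} :=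
    measurableSet_lt ((meas_ssq L).comp meas_ext) measurable_const
  unfold volB
  rw [← lintegral_indicator_one hm]
  refine lintegral_congr fun x => ?_
  by_cases h : ssq (ext x) L < 1
  · simp [Ψ0, indicator, h]
  · simp [Ψ0, indicator, h]

/-- the factor -/
noncomputable def KK (l : ℕ) : ENNReal := J (J3^[l] (J Ψ4)) 0

theorem KK_ne_zero (l : ℕ) : KK l ≠ 0 := (good_J (good_iter (good_J good4) l)).pos 0 one_pos

theorem KK_ne_top (l : ℕ) : KK l ≠ ⊤ := by
  obtain ⟨C, hC, h⟩ := (good_J (good_iter (good_J good4) l)).bdd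
  exact ((h 0 le_rfl).trans_lt hC.lt_top).ne

/-- the step is in the first `n` variables, and its factor is small -/
structure Valid (n : ℕ) (t : Stp) : Prop where
  fit : Fit n 1 t.1
  le : ∀ X : ℕ → ℝ, |pev X t.1| ≤ 1 + ∑ i ∈ Finset.range n, X i ^ 2

theorem Fit.isPoly {N k : ℕ} {P : Poly} (h : Fit N k P) : IsPoly N P := fun m hm => (h m hm).1

theorem map_rsp_congr {n : ℕ} {st : List Stp} (hst : ∀ t ∈ st, Valid n t) {X Y : ℕ → ℝ} (h : ∀ i < n, Y i = X i) :
    st.map (rsp Y) = st.map (rsp X) := by
  apply List.map_congr_left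
  intro t ht
  simp only [rsp]
  rw [pev_congr n t.1 (hst t ht).fit.isPoly Y X h]

theorem fibre {n : ℕ} {st : List Stp} (hst : ∀ t ∈ st, Valid n t) (X : ℕ → ℝ) :
    IT n (3 * st.length + 4 + 1 + 1) (fun X => Ψ0 (ssq X (quads n st))) X =
      if 0 < fin (st.map (rsp X)) 0 0 then KK st.length else 0 := by
  set S := ∑ i ∈ Finset.range n, X i ^ 2 with hS
  have hS0 : 0 ≤ S := Finset.sum_nonneg fun i _ => sq_nonneg _
  change ∫⁻ R : ℝ, ∫⁻ w : ℝ, IT (n + 1 + 1) (3 * st.length + 4) (fun X => Ψ0 (ssq X (quads n st)))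
    (Function.update (Function.update X n R) (n + 1) w) = _
  have h1 : ∀ R w : ℝ, IT (n + 1 + 1) (3 * st.length + 4) (fun X => Ψ0 (ssq X (quads n st)))
      (Function.update (Function.update X n R) (n + 1) w) =
      CH R (w ^ 2) (GG w) (st.map (rsp X)) ((R - S - 2) ^ 2) 0 0 0 0 0 := by
    intro R w
    rw [IT_congr (Φ' := rd R w (st.map (rsp X)) (n + 2) ((R - S - 2) ^ 2) 0 0 0 0 0)]
    · have := rd_IT R w (st.map (rsp X)) (n + 2) ((R - S - 2) ^ 2) 0 0 0 0 0
        (Function.update (Function.update X n R) (n + 1) w) (sq_nonneg _)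
      rw [List.length_map] at this
      exact this
    · intro Y hY
      have a1 : Y n = R := by
        rw [hY n (by omega), Function.update_of_ne (by omega), Function.update_self]
      have a2 : Y (n + 1) = w := by
        rw [hY (n + 1) (by omega), Function.update_self]
      have a3 : ∀ i < n, Y i = X i := by
        intro i hi
        rw [hY i (by omega), Function.update_of_ne (by omega), Function.update_of_ne (by omega)]
      have a4 : ∑ i ∈ Finset.range n, Y i ^ 2 = S :=
        Finset.sum_congr rfl fun i hi => by rw [a3 i (Finset.mem_range.1 hi)]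
      rw [rd_quads, a1, a2, a4, map_rsp_congr hst a3]
  simp only [h1]
  have h2 : ∀ R : ℝ, ∫⁻ w : ℝ, CH R (w ^ 2) (GG w) (st.map (rsp X)) ((R - S - 2) ^ 2) 0 0 0 0 0 =
      if 0 < fin (st.map (rsp X)) 0 0 then J3^[st.length] (J Ψ4) ((R - S - 2) ^ 2) else 0 := by
    intro R
    have := chain_val good4 R ((R - S - 2) ^ 2) (sq_nonneg _) (st.map (rsp X)) ?_
    · rw [List.length_map] at this
      exact this
    · by_cases hR : 1 ≤ (R - S - 2) ^ 2
      · exact Or.inl hR
      · right
        push Not at hR
        have hR' := abs_lt_of_sq_lt_sq' (by simpa using hR : (R - S - 2) ^ 2 < 1 ^ 2) (by norm_num)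
        intro s hs
        obtain ⟨t, ht, rfl⟩ := List.mem_map.1 hs
        have h3 := (hst t ht).le X
        refine ⟨?_, ?_⟩
        · simp only [rsp]
          rw [← hS] at h3
          linarith [hR'.1]
        · simp only [rsp]
          have b1 : (0 : ℝ) ≤ t.2.2.1 := Nat.cast_nonneg _
          have b2 : (0 : ℝ) ≤ t.2.2.2 := Nat.cast_nonneg _
          have b3 : |(t.2.2.1 : ℝ) - t.2.2.2| ≤ t.2.2.1 + t.2.2.2 := by
            rw [abs_le]
            constructor <;> linarith
          linarith
  simp only [h2]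
  split_ifs with hA
  · rw [KK, J]
    rw [← lintegral_sub_right_eq_self (fun p : ℝ => J3^[st.length] (J Ψ4) (0 + p ^ 2)) (S + 2)]
    refine lintegral_congr fun R => ?_
    rw [show (0 : ℝ) + (R - (S + 2)) ^ 2 = (R - S - 2) ^ 2 by ring]
  · exact lintegral_zero

theorem volB_quads {n : ℕ} {st : List Stp} (hst : ∀ t ∈ st, Valid n t) (H : Poly)
    (hH : ∀ X : ℕ → ℝ, fin (st.map (rsp X)) 0 0 = pev X H) :
    volB (nv n st, quads n st) = KK st.length * volP (n, H) := by
  have hΦ : Measurable (fun X : ℕ → ℝ => Ψ0 (ssq X (quads n st))) := good0.meas.comp (meas_ssq _)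
  rw [volB_eq, vol_IT hΦ (3 * st.length + 4 + 1 + 1) n (nv n st) rfl]
  have hm : MeasurableSet {x : Fin n → ℝ | 0 < pev (ext x) H} := measurableSet_lt measurable_const (meas_pev H)
  unfold volP
  rw [← lintegral_indicator_const hm]
  refine lintegral_congr fun x => ?_
  rw [fibre hst, hH]
  by_cases h : 0 < pev (ext x) H
  · rw [if_pos h, indicator_of_mem (by exact h)]
  · rw [if_neg h, indicator_of_notMem (by exact h)]

end Pool.Agent.H839.PV.QQ
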